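import Pool.Agent.LibSP74.BasicA
import Pool.Agent.LibSP74.PL3

/-!
# The lower bound for the sprawl in dimension 3

Paper proof: helper97 (B14_page_MP_c499fd.md), Lean plan: helper52 (B14_lean_MP_c499fd.md).
`cm N` is the cone probability measure of the norm `N`, as a measure on `R^d`; `sg d` is the uniform
measure of the euclidean unit sphere.
-/

set_option autoImplicit false

open MeasureTheory Set

namespace Pool.Agent.LibSP52

open Pool.Agent.LibSP74

/-- The euclidean norm, as a function. -/
noncomputable def nrm (d : ℕ) : E d → ℝ := fun x => ‖x‖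

lemma isN_nrm (d : ℕ) : IsN (nrm d) where
  cont := continuous_norm
  smul c z := by unfold nrm; rw [norm_smul, Real.norm_eq_abs]
  add_le z w := norm_add_le z w
  pos z hz := norm_pos_iff.2 hz

/-- The cone probability measure of the norm `N`, as a measure on `R^d`: the distribution of `x / N x`
for `x` uniform in the unit ball of `N`. -/
noncomputable def cm {d : ℕ} (N : E d → ℝ) : Measure (E d) :=
  (volume {x : E d | N x ≤ 1})⁻¹ •
    Measure.map (fun x : E d => (N x)⁻¹ • x) (volume.restrict {x : E d | N x ≤ 1})

/-- The uniform probability measure of the euclidean unit sphere. -/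
noncomputable def sg (d : ℕ) : Measure (E d) := cm (nrm d)

/-- `π` is a coupling of `cm N` and `sg d`. -/
structure IsCpl {d : ℕ} (N : E d → ℝ) (π : Measure (E d × E d)) : Prop where
  prob : IsProbabilityMeasure π
  fst : π.map Prod.fst = cm N
  snd : π.map Prod.snd = sg d

/-- The inequality of Blaschke and Santalo for symmetric sets. -/
def Sant (d : ℕ) : Prop :=
  ∀ A B : Set (E d), MeasurableSet A → MeasurableSet B → Bornology.IsBounded A →
    Bornology.IsBounded B → (∀ x ∈ A, -x ∈ A) → (∀ y ∈ B, -y ∈ B) →
    (∀ x ∈ A, ∀ y ∈ B, inner ℝ x y ≤ 1) →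
    volume A * volume B ≤ volume {z : E d | ‖z‖ ≤ 1} ^ 2

end Pool.Agent.LibSP52
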