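import Pool.Agent.LibSP52.K3

/-!
[SP B3] The second moments of the sphere and the sprawl of the ball in dimension 3.
1. `sg d` is invariant under linear isometries `U`: unfold `cm`, `U` preserves the volume and `{‖x‖ ≤ 1}`, `U (‖x‖⁻¹ • x) = ‖U x‖⁻¹ • U x`.
2. `∫ ⟪u, ζ⟫² ∂sg d` depends only on `‖u‖` (for `‖u‖ = ‖v‖` there is an isometry with `U u = v`, e.g. `reflection`), and the sum over the
   standard basis is `∫ ‖ζ‖² = 1` (`ae_cm`); homogeneity of degree 2.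
3. `ball3`: `sprawl_cm`, and for `‖x‖ = 1` `kernel3` for `nrm 3` gives `∫ ‖x - y‖ ∂sg = ∫ ‖ζ‖ (1 - 1 + 4 ⟪x, ζ⟫²) = 4/3`.
-/

set_option autoImplicit false

open MeasureTheory Set

namespace Pool.Agent.LibSP52

open Pool.Agent.LibSP74

/-- The radial projection is measurable. -/
lemma b3_meas (d : ℕ) : Measurable (fun x : E d => (nrm d x)⁻¹ • x) :=
  (isN_nrm d).cont.measurable.inv.smul measurable_id

/-- `sg d` is invariant under linear isometries. -/
lemma b3_map {d : ℕ} (U : E d ≃ₗᵢ[ℝ] E d) : (sg d).map U = sg d := by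
  have hU : Measurable U := U.continuous.measurable
  have hmp : MeasurePreserving U (volume : Measure (E d)) volume := U.measurePreserving
  have hset : MeasurableSet {x : E d | nrm d x ≤ 1} := (isN_nrm d).measurableSet_ball 1
  have h1 : U ⁻¹' {x : E d | nrm d x ≤ 1} = {x : E d | nrm d x ≤ 1} := by
    ext x
    simp only [mem_preimage, mem_setOf_eq, nrm, LinearIsometryEquiv.norm_map]
  have h2 : (volume.restrict {x : E d | nrm d x ≤ 1}).map U =
      volume.restrict {x : E d | nrm d x ≤ 1} := by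
    have h := (hmp.restrict_preimage hset).map_eq
    rwa [h1] at h
  have h3 : (U ∘ fun x : E d => (nrm d x)⁻¹ • x) = (fun x : E d => (nrm d x)⁻¹ • x) ∘ U := by
    funext x
    simp only [Function.comp_apply, nrm, LinearIsometryEquiv.norm_map, map_smul]
  unfold sg cm
  rw [Measure.map_smul, Measure.map_map hU (b3_meas d), h3, ← Measure.map_map (b3_meas d) hU, h2]

/-- The second moment depends only on the norm. -/
lemma b3_eq {d : ℕ} {u v : E d} (h : ‖u‖ = ‖v‖) :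
    ∫ ζ, inner ℝ u ζ ^ 2 ∂(sg d) = ∫ ζ, inner ℝ v ζ ^ 2 ∂(sg d) := by
  set U : E d ≃ₗᵢ[ℝ] E d := (ℝ ∙ (u - v))ᗮ.reflection with hU
  have h1 : U u = v := Submodule.reflection_sub h
  have hm : Measurable U := U.continuous.measurable
  have hc : Continuous fun ζ : E d => inner ℝ v ζ ^ 2 := by fun_prop
  calc ∫ ζ, inner ℝ u ζ ^ 2 ∂(sg d) = ∫ ζ, inner ℝ v (U ζ) ^ 2 ∂(sg d) := by
        congr 1
        funext ζ
        rw [← h1, LinearIsometryEquiv.inner_map_map]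
    _ = ∫ ζ, inner ℝ v ζ ^ 2 ∂((sg d).map U) :=
        (integral_map hm.aemeasurable hc.aestronglyMeasurable).symm
    _ = _ := by rw [b3_map]

lemma b3_integrable {d : ℕ} (hd : d ≠ 0) (u : E d) :
    Integrable (fun ζ => inner ℝ u ζ ^ 2) (sg d) := by
  have hc : Continuous fun ζ : E d => inner ℝ u ζ ^ 2 := by fun_prop
  refine integrable_cm (isN_nrm d) hd hc.measurable (C := ‖u‖ ^ 2) (fun x hx => ?_)
  have h1 : ‖x‖ = 1 := hx
  rw [abs_pow]
  refine pow_le_pow_left₀ (abs_nonneg _) ?_ 2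
  have h2 := abs_real_inner_le_norm u x
  rwa [h1, mul_one] at h2

lemma b3_norm_one {d : ℕ} (hd : d ≠ 0) : ∀ᵐ ζ ∂(sg d), ‖ζ‖ = 1 := ae_cm (isN_nrm d) hd

theorem second_moment {d : ℕ} (hd : d ≠ 0) (u : E d) :
    ∫ ζ, inner ℝ u ζ ^ 2 ∂(sg d) = ‖u‖ ^ 2 / d := by
  haveI : IsProbabilityMeasure (sg d) := isProb_cm (isN_nrm d)
  have hd' : (d : ℝ) ≠ 0 := Nat.cast_ne_zero.2 hd
  obtain ⟨i₀⟩ : Nonempty (Fin d) := ⟨⟨0, Nat.pos_of_ne_zero hd⟩⟩
  have he : ∀ i : Fin d, ‖(EuclideanSpace.single i (1 : ℝ) : E d)‖ = 1 := by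
    intro i
    rw [EuclideanSpace.norm_single, norm_one]
  -- the basis vectors
  have hsum : ∑ i : Fin d, ∫ ζ, inner ℝ (EuclideanSpace.single i (1 : ℝ) : E d) ζ ^ 2 ∂(sg d) = 1 := by
    rw [← integral_finset_sum _ (fun i _ => b3_integrable hd _)]
    have h1 : ∀ᵐ ζ ∂(sg d), ∑ i : Fin d, inner ℝ (EuclideanSpace.single i (1 : ℝ) : E d) ζ ^ 2 = 1 := by
      filter_upwards [b3_norm_one hd] with ζ hζ
      have h2 : ∑ i : Fin d, inner ℝ (EuclideanSpace.single i (1 : ℝ) : E d) ζ ^ 2 = ‖ζ‖ ^ 2 := by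
        rw [EuclideanSpace.norm_sq_eq]
        refine Finset.sum_congr rfl (fun i _ => ?_)
        rw [EuclideanSpace.inner_single_left, Real.norm_eq_abs, sq_abs]
        simp
      rw [h2, hζ, one_pow]
    rw [integral_congr_ae h1, integral_const, probReal_univ, one_smul]
  have hbase : ∫ ζ, inner ℝ (EuclideanSpace.single i₀ (1 : ℝ) : E d) ζ ^ 2 ∂(sg d) = 1 / d := by
    have h1 : ∀ i : Fin d, ∫ ζ, inner ℝ (EuclideanSpace.single i (1 : ℝ) : E d) ζ ^ 2 ∂(sg d) =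
        ∫ ζ, inner ℝ (EuclideanSpace.single i₀ (1 : ℝ) : E d) ζ ^ 2 ∂(sg d) :=
      fun i => b3_eq ((he i).trans (he i₀).symm)
    rw [Finset.sum_congr rfl (fun i _ => h1 i), Finset.sum_const, Finset.card_univ, Fintype.card_fin,
      nsmul_eq_mul] at hsum
    rw [eq_div_iff hd', mul_comm]
    exact hsum
  have hscale : ∫ ζ, inner ℝ (‖u‖ • (EuclideanSpace.single i₀ (1 : ℝ) : E d)) ζ ^ 2 ∂(sg d) =
      ‖u‖ ^ 2 / d := by
    have h1 : ∀ ζ : E d, inner ℝ (‖u‖ • (EuclideanSpace.single i₀ (1 : ℝ) : E d)) ζ ^ 2 =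
        ‖u‖ ^ 2 * inner ℝ (EuclideanSpace.single i₀ (1 : ℝ) : E d) ζ ^ 2 := by
      intro ζ
      rw [real_inner_smul_left, mul_pow]
    simp only [h1]
    rw [integral_const_mul, hbase]
    ring
  rw [← hscale]
  refine b3_eq ?_
  rw [norm_smul, he, mul_one, norm_norm]

/-- The sprawl of the ball in dimension 3. -/
theorem ball3 : sprawl (nrm 3) = 4 / 3 := by
  haveI : IsProbabilityMeasure (sg 3) := isProb_cm (isN_nrm 3)
  haveI : IsProbabilityMeasure (cm (nrm 3)) := isProb_cm (isN_nrm 3)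
  have h3 : (3 : ℕ) ≠ 0 := by norm_num
  rw [sprawl_cm (isN_nrm 3)]
  have h1 : ∀ᵐ x ∂(cm (nrm 3)), (∫ y, nrm 3 (x - y) ∂(cm (nrm 3))) = 4 / 3 := by
    filter_upwards [b3_norm_one h3] with x hx
    have h2 := kernel3 (isN_nrm 3) (t := x) hx.le
    have h4 : ∀ᵐ ζ ∂(sg 3), nrm 3 ζ * (1 - ‖x‖ ^ 2 + 4 * inner ℝ x ζ ^ 2) =
        4 * inner ℝ x ζ ^ 2 := by
      filter_upwards [b3_norm_one h3] with ζ hζ
      have h5 : nrm 3 ζ = 1 := hζ
      rw [h5, hx]
      ring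
    rw [integral_congr_ae h4, integral_const_mul, second_moment h3, hx] at h2
    refine h2.trans ?_
    norm_num
  rw [integral_congr_ae h1, integral_const, probReal_univ, one_smul]

end Pool.Agent.LibSP52
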