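import Pool.Agent.LibSP74.BasicA
import Pool.Agent.LibSP52.Defs

/-!
[SP C1] Continuity of the sprawl along the path from the ball to the cube.  PAPER PROOF.  `N_t = (1-t) ‖·‖ + t mx`, `t ∈ [0,1]`, is a norm.
`mx ≤ ‖·‖ ≤ √d mx`, so all the bodies `{N_t ≤ 1}` lie in a fixed ball and contain a fixed ball.
`sprawl N_t = (∫∫ 1[N_t x ≤ 1] 1[N_t y ≤ 1] N_t (x / N_t x - y / N_t y)) / vol N_t ^ 2`: dominated convergence, the integrands are
continuous in `t` outside the null sets `{N_t x = 1}` (`volume {N = 1} = 0`: `volume_ball`) and bounded by `2` on a bounded set;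
`vol N_t` is continuous (same argument) and positive.  (`H78Sprawl/Ends.lean` and others do `d = 2`.)
-/

set_option autoImplicit false

open MeasureTheory Set
open scoped Topology

namespace Pool.Agent.LibSP52

open Pool.Agent.LibSP74

/-- The path from the euclidean norm to the sup norm. -/
noncomputable def pth (d : ℕ) (t : ℝ) : E d → ℝ := fun x => (1 - t) * ‖x‖ + t * mx x

lemma c1_mx_cont (d : ℕ) : Continuous (mx : E d → ℝ) := by
  unfold mx
  exact (PiLp.continuous_ofLp 2 _).norm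

lemma c1_mx_le {d : ℕ} (x : E d) : mx x ≤ ‖x‖ := by
  unfold mx
  rw [pi_norm_le_iff_of_nonneg (norm_nonneg x)]
  intro i
  exact PiLp.norm_apply_le x i

lemma c1_mx_pos {d : ℕ} {x : E d} (hx : x ≠ 0) : 0 < mx x := by
  unfold mx
  rw [norm_pos_iff]
  intro h
  apply hx
  ext i
  exact congrFun h i

lemma c1_mx_nonneg {d : ℕ} (x : E d) : 0 ≤ mx x := by
  unfold mx
  exact norm_nonneg _

lemma c1_mx_le_pth (d : ℕ) {t : ℝ} (ht : t ∈ Icc (0 : ℝ) 1) (x : E d) : mx x ≤ pth d t x := by
  have h1 := c1_mx_le x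
  have h2 : 0 ≤ 1 - t := by linarith [ht.2]
  have h3 := mul_le_mul_of_nonneg_left h1 h2
  unfold pth
  linarith

theorem isN_pth (d : ℕ) {t : ℝ} (ht : t ∈ Icc (0 : ℝ) 1) : IsN (pth d t) where
  cont := by
    unfold pth
    exact (continuous_const.mul continuous_norm).add (continuous_const.mul (c1_mx_cont d))
  smul c z := by
    have h1 : mx (c • z) = |c| * mx z := by
      unfold mx
      rw [WithLp.ofLp_smul, norm_smul, Real.norm_eq_abs]
    unfold pth
    rw [h1, norm_smul, Real.norm_eq_abs]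
    ring
  add_le z w := by
    have h1 : mx (z + w) ≤ mx z + mx w := by
      unfold mx
      rw [WithLp.ofLp_add]
      exact norm_add_le _ _
    have h2 := mul_le_mul_of_nonneg_left (norm_add_le z w) (show 0 ≤ 1 - t by linarith [ht.2])
    have h3 := mul_le_mul_of_nonneg_left h1 ht.1
    unfold pth
    linarith
  pos z hz := (c1_mx_pos hz).trans_le (c1_mx_le_pth d ht z)

lemma c1_pth_cont (d : ℕ) : Continuous fun p : ℝ × E d => pth d p.1 p.2 := by
  unfold pth
  exact ((continuous_const.sub continuous_fst).mul continuous_snd.norm).add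
    (continuous_fst.mul ((c1_mx_cont d).comp continuous_snd))

/-- The unit sphere of a norm is a null set. -/
lemma c1_null {d : ℕ} {N : E d → ℝ} (h : IsN N) : volume {x : E d | N x = 1} = 0 := by
  have hc : Convex ℝ {x : E d | N x ≤ 1} := by
    intro x hx y hy a b ha hb hab
    have h1 : N (a • x + b • y) ≤ a * N x + b * N y := by
      refine (h.add_le _ _).trans ?_
      rw [h.smul_nonneg ha, h.smul_nonneg hb]
    have h2 : a * N x ≤ a * 1 := mul_le_mul_of_nonneg_left hx ha
    have h3 : b * N y ≤ b * 1 := mul_le_mul_of_nonneg_left hy hb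
    show N (a • x + b • y) ≤ 1
    linarith
  refine measure_mono_null ?_ (hc.addHaar_frontier volume)
  intro x hx
  have hx1 : N x = 1 := hx
  refine ⟨subset_closure (show N x ≤ 1 from hx1.le), fun hi => ?_⟩
  have hcont : Filter.Tendsto (fun r : ℝ => (1 + r) • x) (𝓝[>] 0) (𝓝 x) := by
    have h1 : Continuous fun r : ℝ => (1 + r) • x := by fun_prop
    have h2 := (h1.tendsto 0).mono_left (nhdsWithin_le_nhds (s := Ioi 0))
    simpa using h2
  have hev := hcont.eventually (isOpen_interior.mem_nhds hi)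
  obtain ⟨r, hr, hr0⟩ := (hev.and self_mem_nhdsWithin).exists
  have hr0' : (0 : ℝ) < r := hr0
  have h3 : N ((1 + r) • x) ≤ 1 := interior_subset (s := {x : E d | N x ≤ 1}) hr
  rw [h.smul_nonneg (by linarith), hx1] at h3
  linarith

/-- The indicator of the body. -/
noncomputable def c1_chi (d : ℕ) (t : ℝ) (x : E d) : ℝ := if pth d t x ≤ 1 then 1 else 0

/-- The distance of the radial projections. -/
noncomputable def c1_g (d : ℕ) (t : ℝ) (z : E d × E d) : ℝ :=
  pth d t ((pth d t z.1)⁻¹ • z.1 - (pth d t z.2)⁻¹ • z.2)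

lemma c1_chi_contAt {d : ℕ} {t₀ : ℝ} {x : E d} (hx : pth d t₀ x ≠ 1) :
    ContinuousAt (fun t => c1_chi d t x) t₀ := by
  have hc : Continuous fun t => pth d t x :=
    (c1_pth_cont d).comp (continuous_id.prodMk continuous_const)
  rcases lt_or_gt_of_ne hx with h | h
  · have hev : ∀ᶠ t in 𝓝 t₀, pth d t x < 1 := (hc.tendsto t₀).eventually_lt_const h
    refine (continuousAt_const (y := (1 : ℝ))).congr (hev.mono fun t ht => ?_)
    show (1 : ℝ) = c1_chi d t x
    unfold c1_chi
    rw [if_pos ht.le]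
  · have hev : ∀ᶠ t in 𝓝 t₀, 1 < pth d t x := (hc.tendsto t₀).eventually_const_lt h
    refine (continuousAt_const (y := (0 : ℝ))).congr (hev.mono fun t ht => ?_)
    show (0 : ℝ) = c1_chi d t x
    unfold c1_chi
    rw [if_neg (not_le.2 ht)]

lemma c1_unit_contAt {d : ℕ} {t₀ : ℝ} (ht : t₀ ∈ Icc (0 : ℝ) 1) (x : E d) :
    ContinuousAt (fun t => (pth d t x)⁻¹ • x) t₀ := by
  have hc : Continuous fun t => pth d t x :=
    (c1_pth_cont d).comp (continuous_id.prodMk continuous_const)
  by_cases hx : x = 0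
  · subst hx
    simp only [smul_zero]
    exact continuousAt_const
  · exact (hc.continuousAt.inv₀ ((isN_pth d ht).pos x hx).ne').smul continuousAt_const

lemma c1_g_contAt {d : ℕ} {t₀ : ℝ} (ht : t₀ ∈ Icc (0 : ℝ) 1) (z : E d × E d) :
    ContinuousAt (fun t => c1_g d t z) t₀ := by
  have h1 : ContinuousAt (fun t : ℝ => (t, (pth d t z.1)⁻¹ • z.1 - (pth d t z.2)⁻¹ • z.2)) t₀ :=
    continuousAt_id.prodMk ((c1_unit_contAt ht z.1).sub (c1_unit_contAt ht z.2))
  exact ContinuousAt.comp (g := fun p : ℝ × E d => pth d p.1 p.2) (c1_pth_cont d).continuousAt h1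

lemma c1_measurable_chi {d : ℕ} {t : ℝ} (ht : t ∈ Icc (0 : ℝ) 1) : Measurable (c1_chi d t) := by
  unfold c1_chi
  exact Measurable.ite ((isN_pth d ht).measurableSet_ball 1) measurable_const measurable_const

lemma c1_measurable_g {d : ℕ} {t : ℝ} (ht : t ∈ Icc (0 : ℝ) 1) : Measurable (c1_g d t) := by
  have hm := (isN_pth d ht).cont.measurable
  unfold c1_g
  refine hm.comp ?_
  exact ((hm.comp measurable_fst).inv.smul measurable_fst).sub
    ((hm.comp measurable_snd).inv.smul measurable_snd)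

lemma c1_unit_le {d : ℕ} {N : E d → ℝ} (h : IsN N) (x : E d) : N ((N x)⁻¹ • x) ≤ 1 := by
  rw [h.smul_nonneg (inv_nonneg.2 (h.nonneg x))]
  exact inv_mul_le_one

lemma c1_g_bound {d : ℕ} {t : ℝ} (ht : t ∈ Icc (0 : ℝ) 1) (z : E d × E d) : |c1_g d t z| ≤ 2 := by
  have h := isN_pth d ht
  unfold c1_g
  rw [abs_of_nonneg (h.nonneg _)]
  refine (h.sub_le _ _).trans ?_
  have h1 := c1_unit_le h z.1
  have h2 := c1_unit_le h z.2
  linarith

lemma c1_chi_bound (d : ℕ) (t : ℝ) (x : E d) : |c1_chi d t x| ≤ 1 := by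
  unfold c1_chi
  split_ifs <;> simp

lemma c1_chi_zero {d : ℕ} {t : ℝ} (ht : t ∈ Icc (0 : ℝ) 1) {x : E d} (hx : ¬ pth d 1 x ≤ 1) :
    c1_chi d t x = 0 := by
  unfold c1_chi
  rw [if_neg]
  intro h
  apply hx
  have h1 := c1_mx_le_pth d ht x
  unfold pth
  linarith

lemma c1_one_mem : (1 : ℝ) ∈ Icc (0 : ℝ) 1 := ⟨zero_le_one, le_rfl⟩

/-- The bound for the integrands on `R^d`. -/
lemma c1_bound_one {d : ℕ} {t : ℝ} (ht : t ∈ Icc (0 : ℝ) 1) (x : E d) :
    ‖c1_chi d t x‖ ≤ indicator {x : E d | pth d 1 x ≤ 1} (fun _ => (1 : ℝ)) x := by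
  by_cases hx : pth d 1 x ≤ 1
  · rw [indicator_of_mem (show x ∈ {x : E d | pth d 1 x ≤ 1} from hx)]
    exact c1_chi_bound d t x
  · rw [c1_chi_zero ht hx, norm_zero]
    exact indicator_nonneg (fun _ _ => zero_le_one) _

lemma c1_int_one (d : ℕ) :
    Integrable (indicator {x : E d | pth d 1 x ≤ 1} (fun _ => (1 : ℝ))) := by
  have h := isN_pth d c1_one_mem
  rw [integrable_indicator_iff (h.measurableSet_ball 1)]
  exact integrableOn_const (h.isCompact_ball 1).measure_lt_top.ne

lemma c1_vol_eq {d : ℕ} {t : ℝ} (ht : t ∈ Icc (0 : ℝ) 1) :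
    vol (pth d t) = ∫ x : E d, c1_chi d t x := by
  have h := isN_pth d ht
  have h1 : (fun x : E d => c1_chi d t x) =
      indicator {x : E d | pth d t x ≤ 1} (fun _ => (1 : ℝ)) := by
    funext x
    unfold c1_chi
    rw [indicator_apply]
    rfl
  rw [h1, integral_indicator (h.measurableSet_ball 1), setIntegral_const]
  unfold vol
  rw [smul_eq_mul, mul_one]
  rfl

lemma c1_vol_cont (d : ℕ) : ContinuousOn (fun t : ℝ => vol (pth d t)) (Icc 0 1) := by
  have h1 : ContinuousOn (fun t : ℝ => ∫ x : E d, c1_chi d t x) (Icc 0 1) := by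
    intro t₀ ht₀
    refine continuousWithinAt_of_dominated (bound := indicator {x : E d | pth d 1 x ≤ 1}
      (fun _ => (1 : ℝ))) ?_ ?_ (c1_int_one d) ?_
    · filter_upwards [self_mem_nhdsWithin] with t ht
      exact (c1_measurable_chi ht).aestronglyMeasurable
    · filter_upwards [self_mem_nhdsWithin] with t ht
      exact Filter.Eventually.of_forall (c1_bound_one ht)
    · have h2 : ∀ᵐ x : E d, pth d t₀ x ≠ 1 := by
        rw [ae_iff]
        simpa using c1_null (isN_pth d ht₀)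
      filter_upwards [h2] with x hx
      exact (c1_chi_contAt hx).continuousWithinAt
  exact h1.congr fun t ht => c1_vol_eq ht

/-- The product integrand. -/
noncomputable def c1_G (d : ℕ) (t : ℝ) (z : E d × E d) : ℝ :=
  c1_chi d t z.1 * c1_chi d t z.2 * c1_g d t z

lemma c1_bound_two {d : ℕ} {t : ℝ} (ht : t ∈ Icc (0 : ℝ) 1) (z : E d × E d) :
    ‖c1_G d t z‖ ≤ indicator ({x : E d | pth d 1 x ≤ 1} ×ˢ {x : E d | pth d 1 x ≤ 1})
      (fun _ => (2 : ℝ)) z := by
  by_cases hz : z ∈ {x : E d | pth d 1 x ≤ 1} ×ˢ {x : E d | pth d 1 x ≤ 1}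
  · rw [indicator_of_mem hz]
    unfold c1_G
    rw [norm_mul, norm_mul, Real.norm_eq_abs, Real.norm_eq_abs, Real.norm_eq_abs]
    have h1 := c1_chi_bound d t z.1
    have h2 := c1_chi_bound d t z.2
    have h3 := c1_g_bound ht z
    have h4 : |c1_chi d t z.1| * |c1_chi d t z.2| ≤ 1 * 1 :=
      mul_le_mul h1 h2 (abs_nonneg _) zero_le_one
    have h5 := mul_le_mul h4 h3 (abs_nonneg _) (by norm_num)
    linarith
  · have h0 : c1_G d t z = 0 := by
      unfold c1_G
      rw [mem_prod, not_and_or] at hz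
      rcases hz with hz | hz
      · rw [c1_chi_zero ht hz]; ring
      · rw [c1_chi_zero ht hz]; ring
    rw [h0, norm_zero]
    exact indicator_nonneg (fun _ _ => by norm_num) _

lemma c1_int_two (d : ℕ) :
    Integrable (indicator ({x : E d | pth d 1 x ≤ 1} ×ˢ {x : E d | pth d 1 x ≤ 1})
      (fun _ => (2 : ℝ))) (volume.prod volume) := by
  have h := isN_pth d c1_one_mem
  rw [integrable_indicator_iff ((h.measurableSet_ball 1).prod (h.measurableSet_ball 1))]
  refine integrableOn_const ?_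
  rw [Measure.prod_prod]
  exact ENNReal.mul_ne_top (h.isCompact_ball 1).measure_lt_top.ne
    (h.isCompact_ball 1).measure_lt_top.ne

lemma c1_measurable_G {d : ℕ} {t : ℝ} (ht : t ∈ Icc (0 : ℝ) 1) : Measurable (c1_G d t) := by
  unfold c1_G
  exact (((c1_measurable_chi ht).comp measurable_fst).mul
    ((c1_measurable_chi ht).comp measurable_snd)).mul (c1_measurable_g ht)

lemma c1_integrable_G {d : ℕ} {t : ℝ} (ht : t ∈ Icc (0 : ℝ) 1) :
    Integrable (c1_G d t) (volume.prod volume) :=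
  (c1_int_two d).mono' (c1_measurable_G ht).aestronglyMeasurable
    (Filter.Eventually.of_forall (c1_bound_two ht))

lemma c1_num_eq {d : ℕ} {t : ℝ} (ht : t ∈ Icc (0 : ℝ) 1) :
    ∫ x in {x : E d | pth d t x ≤ 1}, ∫ y in {x : E d | pth d t x ≤ 1},
      pth d t ((pth d t x)⁻¹ • x - (pth d t y)⁻¹ • y) =
      ∫ z, c1_G d t z ∂((volume : Measure (E d)).prod (volume : Measure (E d))) := by
  have h := isN_pth d ht
  have hms := h.measurableSet_ball 1
  have h1 : c1_G d t = indicator ({x : E d | pth d t x ≤ 1} ×ˢ {x : E d | pth d t x ≤ 1})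
      (c1_g d t) := by
    funext z
    unfold c1_G c1_chi
    rw [indicator_apply]
    by_cases h2 : pth d t z.1 ≤ 1
    · by_cases h3 : pth d t z.2 ≤ 1
      · have h4 : z ∈ {x : E d | pth d t x ≤ 1} ×ˢ {x : E d | pth d t x ≤ 1} := ⟨h2, h3⟩
        rw [if_pos h2, if_pos h3, if_pos h4]; ring
      · rw [if_pos h2, if_neg h3, if_neg (fun hc => h3 (mem_prod.1 hc).2)]; ring
    · rw [if_neg h2, if_neg (fun hc => h2 (mem_prod.1 hc).1)]; ring
  have h2 : IntegrableOn (c1_g d t) ({x : E d | pth d t x ≤ 1} ×ˢ {x : E d | pth d t x ≤ 1})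
      (volume.prod volume) := by
    rw [← integrable_indicator_iff (hms.prod hms), ← h1]
    exact c1_integrable_G ht
  rw [h1, integral_indicator (hms.prod hms), setIntegral_prod _ h2]
  rfl

lemma c1_num_cont (d : ℕ) : ContinuousOn (fun t : ℝ =>
    ∫ z, c1_G d t z ∂((volume : Measure (E d)).prod (volume : Measure (E d)))) (Icc 0 1) := by
  intro t₀ ht₀
  refine continuousWithinAt_of_dominated (bound := indicator ({x : E d | pth d 1 x ≤ 1} ×ˢ
    {x : E d | pth d 1 x ≤ 1}) (fun _ => (2 : ℝ))) ?_ ?_ (c1_int_two d) ?_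
  · filter_upwards [self_mem_nhdsWithin] with t ht
    exact (c1_measurable_G ht).aestronglyMeasurable
  · filter_upwards [self_mem_nhdsWithin] with t ht
    exact Filter.Eventually.of_forall (c1_bound_two ht)
  · have h2 : ∀ᵐ x : E d, pth d t₀ x ≠ 1 := by
      rw [ae_iff]
      simpa using c1_null (isN_pth d ht₀)
    filter_upwards [Measure.quasiMeasurePreserving_fst.ae h2,
      Measure.quasiMeasurePreserving_snd.ae h2] with z hz1 hz2
    exact (((c1_chi_contAt hz1).mul (c1_chi_contAt hz2)).mul (c1_g_contAt ht₀ z)).continuousWithinAt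

theorem continuousOn_sprawl (d : ℕ) (hd : d ≠ 0) :
    ContinuousOn (fun t : ℝ => sprawl (pth d t)) (Icc 0 1) := by
  have h1 : ContinuousOn (fun t : ℝ =>
      (∫ z, c1_G d t z ∂((volume : Measure (E d)).prod (volume : Measure (E d)))) /
        vol (pth d t) ^ 2) (Icc 0 1) := by
    refine (c1_num_cont d).div ((c1_vol_cont d).pow 2) fun t ht => ?_
    exact pow_ne_zero 2 (isN_pth d ht).vol_pos.ne'
  refine h1.congr fun t ht => ?_
  show sprawl (pth d t) = _
  unfold sprawl
  rw [c1_num_eq ht]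

end Pool.Agent.LibSP52
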