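import Pool.Agent.LibSP52.C1
import Pool.Agent.LibSP74.Main

/-!
[SP F1] The frozen set equality in dimension `d` from the lower bound in dimension `d` (all `d ≥ 3`): upper bound
`LibSP74.sprawl_le` (see `Results/MP_c499fd_gt/CubeMax.lean`, which does the same translation between bodies and norms: `body_norm`,
`gauge_ball`, `cube_eq`), all values between by `continuousOn_sprawl` (`intermediate_value_Icc`), the bodies `{pth d t ≤ 1}`.
-/

set_option autoImplicit false

open MeasureTheory Set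

namespace Pool.Agent.LibSP52

open Pool.Agent.LibSP74

/-- The unit ball of a norm is a centrally symmetric convex body. -/
private lemma f1_body {d : ℕ} {N : E d → ℝ} (h : IsN N) :
    Convex ℝ {x : E d | N x ≤ 1} ∧ IsCompact {x : E d | N x ≤ 1} ∧
      (interior {x : E d | N x ≤ 1}).Nonempty ∧ (∀ x ∈ {x : E d | N x ≤ 1}, -x ∈ {x : E d | N x ≤ 1}) := by
  refine ⟨?_, h.isCompact_ball 1, ?_, ?_⟩
  · intro z hz w hw a b ha hb hab
    have h1 := h.add_le (a • z) (b • w)
    rw [h.smul_nonneg ha, h.smul_nonneg hb] at h1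
    have hz' : N z ≤ 1 := hz
    have hw' : N w ≤ 1 := hw
    change N _ ≤ 1
    nlinarith
  · refine ⟨0, mem_interior.2 ⟨{z | N z < 1}, fun z hz => (le_of_lt hz : N z ≤ 1),
      isOpen_lt h.cont continuous_const, ?_⟩⟩
    change N (0 : E d) < 1
    rw [h.zero]; norm_num
  · intro x hx
    change N (-x) ≤ 1
    rw [h.neg]; exact hx

theorem full_of_lower {d : ℕ} (hd : 3 ≤ d) (hlow : ∀ N : E d → ℝ, IsN N → sprawl (nrm d) ≤ sprawl N) :
    ∀ E : Set (EuclideanSpace ℝ (Fin d)) → ℝ,
      E = (fun K : Set (EuclideanSpace ℝ (Fin d)) =>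
        (∫ x in K, ∫ y in K,
            gauge K ((gauge K x)⁻¹ • x - (gauge K y)⁻¹ • y)) /
          ((MeasureTheory.volume K).toReal ^ 2)) →
      {e : ℝ | ∃ K : Set (EuclideanSpace ℝ (Fin d)),
          Convex ℝ K ∧ IsCompact K ∧ (interior K).Nonempty ∧
          (∀ x ∈ K, -x ∈ K) ∧ e = E K} =
        Set.Icc (E (Metric.closedBall (0 : EuclideanSpace ℝ (Fin d)) 1))
          (E {x : EuclideanSpace ℝ (Fin d) |
              ∀ i : Fin d, |EuclideanSpace.proj (𝕜 := ℝ) i x| ≤ 1}) ∧
      E (Metric.closedBall (0 : EuclideanSpace ℝ (Fin d)) 1) = sprawl (nrm d) := by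
  intro E hE
  have hC : IsN (mx : EuclideanSpace ℝ (Fin d) → ℝ) := isN_mx d
  have hsp : ∀ K : Set (EuclideanSpace ℝ (Fin d)), Convex ℝ K → IsCompact K →
      (interior K).Nonempty → (∀ x ∈ K, -x ∈ K) → E K = sprawl (gauge K) := by
    intro K hc hK hi hs
    obtain ⟨-, h2⟩ := body_norm hc hK hi hs
    rw [hE]
    unfold sprawl vol
    simp only
    rw [← h2]
  have hspN : ∀ N : EuclideanSpace ℝ (Fin d) → ℝ, IsN N → E {x | N x ≤ 1} = sprawl N := by
    intro N hN
    obtain ⟨hc, hK, hi, hs⟩ := f1_body hN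
    rw [hsp _ hc hK hi hs, gauge_ball hN]
  have hball : (Metric.closedBall (0 : EuclideanSpace ℝ (Fin d)) 1) = {x | nrm d x ≤ 1} := by
    ext x
    simp [nrm]
  rw [cube_eq d, hball, hspN _ hC, hspN _ (isN_nrm d)]
  refine ⟨?_, rfl⟩
  apply Subset.antisymm
  · rintro e ⟨K, hc, hK, hi, hs, rfl⟩
    rw [hsp K hc hK hi hs]
    have hN := (body_norm hc hK hi hs).1
    exact ⟨hlow _ hN, sprawl_le hN hd⟩
  · intro e he
    have h0 : pth d 0 = nrm d := by
      funext x; simp [pth, nrm]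
    have h1 : pth d 1 = mx := by
      funext x; simp [pth]
    have hcont := continuousOn_sprawl d (by omega)
    have hiv := intermediate_value_Icc (zero_le_one : (0 : ℝ) ≤ 1) hcont
    have he' : e ∈ Icc (sprawl (pth d 0)) (sprawl (pth d 1)) := by
      rw [h0, h1]; exact he
    obtain ⟨t, ht, hte⟩ := hiv he'
    have hN := isN_pth d ht
    obtain ⟨hc, hK, hi, hs⟩ := f1_body hN
    refine ⟨_, hc, hK, hi, hs, ?_⟩
    rw [hspN _ hN]
    exact hte.symm

end Pool.Agent.LibSP52
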