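import Pool.Agent.LibSP52.G1

/-!
[SP G4] Stationarity.  PAPER PROOF.  `Q s = (1+s)^(1+1/d) ∫ f(y) exp (-‖y‖² - (2 s + s²) ⟪u, y⟫²)`; `Q 0 = ∫ f exp (-‖y‖²) ≤ Q s` for
`s > -1`: local minimum at `0`.  `Q` is differentiable at `0` with derivative `(1 + 1/d) ∫ f e^(-‖y‖²) - 2 ∫ f ⟪u, y⟫² e^(-‖y‖²)`
(`hasDerivAt_integral_of_dominated_loc_of_deriv_le` on `|s| < 1/8`: `(2 s + s²) ⟪u, y⟫² ≥ -‖y‖² / 2`, bound
`3 f(y) ‖y‖² exp (-‖y‖² / 2)`, integrable by `radial_moment` after scaling `y ↦ √2 y`, or change `f`), so it is zero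
(`IsLocalMin.hasDerivAt_eq_zero`).
-/

set_option autoImplicit false

open MeasureTheory Set

namespace Pool.Agent.LibSP52

open Pool.Agent.LibSP74

/-- the bound of the derivative is integrable -/
theorem g4_int {d : ℕ} (hd : d ≠ 0) {f : E d → ℝ} (hf : Continuous f) (h0 : ∀ z, 0 ≤ f z)
    (hk : ∀ r : ℝ, 0 < r → ∀ z, f (r • z) = r * f z) :
    Integrable (fun y : E d => 3 * (f y * ‖y‖ ^ 2 * Real.exp (-‖y‖ ^ 2 / 2))) := by
  have h1 : Integrable (fun z : E d => (f z * ‖z‖ ^ 2) * Real.exp (-‖z‖ ^ 2)) := by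
    refine (radial_moment hd (f := fun z => f z * ‖z‖ ^ 2) (hf.mul (continuous_norm.pow 2))
      (fun z => mul_nonneg (h0 z) (sq_nonneg _)) 3 fun r hr z => ?_).1
    rw [hk r hr z, norm_smul, Real.norm_eq_abs, abs_of_pos hr]
    ring
  set c : ℝ := Real.sqrt (1 / 2) with hc
  have hc2 : c ^ 2 = 1 / 2 := Real.sq_sqrt (by norm_num)
  have hcp : 0 < c := Real.sqrt_pos.2 (by norm_num)
  have h2 := (h1.comp_smul hcp.ne').const_mul (3 * (c⁻¹) ^ 3)
  refine h2.congr (Filter.Eventually.of_forall fun y => ?_)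
  have hcc : c⁻¹ * c = 1 := inv_mul_cancel₀ hcp.ne'
  simp only
  rw [hk c hcp y, norm_smul, Real.norm_eq_abs, abs_of_pos hcp]
  have h3 : -(c * ‖y‖) ^ 2 = -‖y‖ ^ 2 / 2 := by
    rw [mul_pow, hc2]
    ring
  rw [h3]
  have h4 : 3 * c⁻¹ ^ 3 * (c * f y * (c * ‖y‖) ^ 2 * Real.exp (-‖y‖ ^ 2 / 2)) =
      3 * ((c⁻¹ * c) ^ 3 * (f y * ‖y‖ ^ 2 * Real.exp (-‖y‖ ^ 2 / 2))) := by
    ring
  rw [h4, hcc, one_pow, one_mul]

/-- the derivative of the integral -/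
theorem g4_deriv {d : ℕ} (hd : d ≠ 0) {f : E d → ℝ} (hf : Continuous f) (h0 : ∀ z, 0 ≤ f z)
    (hk : ∀ r : ℝ, 0 < r → ∀ z, f (r • z) = r * f z) {u : E d} (hu : ‖u‖ = 1) :
    HasDerivAt (fun s : ℝ => ∫ y : E d, f y *
      Real.exp (-‖y‖ ^ 2 - (2 * s + s ^ 2) * inner ℝ u y ^ 2))
      (∫ y : E d, f y * (-(2 * inner ℝ u y ^ 2) * Real.exp (-‖y‖ ^ 2))) 0 := by
  have hin : ∀ y : E d, inner ℝ u y ^ 2 ≤ ‖y‖ ^ 2 := by
    intro y
    have h := abs_real_inner_le_norm u y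
    rw [hu, one_mul] at h
    exact sq_le_sq' (abs_le.1 h).1 (abs_le.1 h).2
  have hcu : Continuous fun y : E d => inner ℝ u y := continuous_const.inner continuous_id
  have hcF : ∀ s : ℝ, Continuous fun y : E d => f y *
      Real.exp (-‖y‖ ^ 2 - (2 * s + s ^ 2) * inner ℝ u y ^ 2) := fun s =>
    hf.mul (Real.continuous_exp.comp (((continuous_norm.pow 2).neg).sub
      (continuous_const.mul (hcu.pow 2))))
  have hcF' : ∀ s : ℝ, Continuous fun y : E d => f y * (-((2 + 2 * s) * inner ℝ u y ^ 2) *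
      Real.exp (-‖y‖ ^ 2 - (2 * s + s ^ 2) * inner ℝ u y ^ 2)) := fun s =>
    hf.mul (((continuous_const.mul (hcu.pow 2)).neg).mul
      (Real.continuous_exp.comp (((continuous_norm.pow 2).neg).sub
      (continuous_const.mul (hcu.pow 2)))))
  have key := (hasDerivAt_integral_of_dominated_loc_of_deriv_le (μ := (volume : Measure (E d)))
    (F := fun (s : ℝ) (y : E d) => f y *
      Real.exp (-‖y‖ ^ 2 - (2 * s + s ^ 2) * inner ℝ u y ^ 2))
    (F' := fun (s : ℝ) (y : E d) => f y * (-((2 + 2 * s) * inner ℝ u y ^ 2) *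
      Real.exp (-‖y‖ ^ 2 - (2 * s + s ^ 2) * inner ℝ u y ^ 2)))
    (x₀ := (0 : ℝ)) (s := Metric.ball (0 : ℝ) (1 / 8))
    (bound := fun y : E d => 3 * (f y * ‖y‖ ^ 2 * Real.exp (-‖y‖ ^ 2 / 2)))
    (Metric.ball_mem_nhds _ (by norm_num))
    (Filter.Eventually.of_forall fun s => (hcF s).aestronglyMeasurable)
    ?_ (hcF' 0).aestronglyMeasurable ?_ (g4_int hd hf h0 hk) ?_).2
  · refine key.congr_deriv ?_
    refine integral_congr_ae (Filter.Eventually.of_forall fun y => ?_)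
    simp only
    congr 2
    · ring
    · congr 1
      ring
  · refine (radial_moment hd hf h0 1 fun r hr z => by rw [pow_one]; exact hk r hr z).1.congr
      (Filter.Eventually.of_forall fun y => ?_)
    simp only
    congr 2
    ring
  · refine Filter.Eventually.of_forall fun y s hs => ?_
    rw [Metric.mem_ball, dist_zero_right, Real.norm_eq_abs, abs_lt] at hs
    obtain ⟨hs1, hs2⟩ := hs
    have h1 := hin y
    have h2 : (0 : ℝ) ≤ inner ℝ u y ^ 2 := sq_nonneg _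
    rw [norm_mul, norm_mul, norm_neg, Real.norm_of_nonneg (h0 y),
      Real.norm_of_nonneg (mul_nonneg (by linarith) h2), Real.norm_of_nonneg (Real.exp_pos _).le]
    have h3 : Real.exp (-‖y‖ ^ 2 - (2 * s + s ^ 2) * inner ℝ u y ^ 2) ≤
        Real.exp (-‖y‖ ^ 2 / 2) := by
      apply Real.exp_le_exp.2
      nlinarith [sq_nonneg s, mul_nonneg (sq_nonneg s) h2]
    have h4 : (2 + 2 * s) * inner ℝ u y ^ 2 ≤ 3 * ‖y‖ ^ 2 := by
      nlinarith [sq_nonneg ‖y‖]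
    calc f y * ((2 + 2 * s) * inner ℝ u y ^ 2 *
          Real.exp (-‖y‖ ^ 2 - (2 * s + s ^ 2) * inner ℝ u y ^ 2))
        ≤ f y * (3 * ‖y‖ ^ 2 * Real.exp (-‖y‖ ^ 2 / 2)) :=
          mul_le_mul_of_nonneg_left (mul_le_mul h4 h3 (Real.exp_pos _).le
            (by positivity)) (h0 y)
      _ = 3 * (f y * ‖y‖ ^ 2 * Real.exp (-‖y‖ ^ 2 / 2)) := by ring
  · refine Filter.Eventually.of_forall fun y s _ => ?_
    have h1 : HasDerivAt (fun s : ℝ => -‖y‖ ^ 2 - (2 * s + s ^ 2) * inner ℝ u y ^ 2)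
        (-((2 + 2 * s) * inner ℝ u y ^ 2)) s := by
      have h2 : HasDerivAt (fun s : ℝ => 2 * s + s ^ 2) (2 + 2 * s) s := by
        have h3 := ((hasDerivAt_id s).const_mul (2 : ℝ)).add (hasDerivAt_pow 2 s)
        refine h3.congr_deriv ?_
        norm_num
      have h4 := (h2.mul_const (inner ℝ u y ^ 2)).const_sub (-‖y‖ ^ 2)
      exact h4
    refine (h1.exp.const_mul (f y)).congr_deriv ?_
    ring

theorem stationary {d : ℕ} (hd : d ≠ 0) {f : E d → ℝ} (hf : Continuous f) (h0 : ∀ z, 0 ≤ f z)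
    (hk : ∀ r : ℝ, 0 < r → ∀ z, f (r • z) = r * f z) {u : E d} (hu : ‖u‖ = 1)
    (hs : ∀ s : ℝ, -1 < s → ∫ y : E d, f y * Real.exp (-‖y‖ ^ 2) ≤ (1 + s) ^ ((1 : ℝ) + 1 / d) *
      ∫ y : E d, f y * Real.exp (-‖y‖ ^ 2 - (2 * s + s ^ 2) * inner ℝ u y ^ 2)) :
    2 * ∫ y : E d, f y * inner ℝ u y ^ 2 * Real.exp (-‖y‖ ^ 2) =
      (1 + 1 / (d : ℝ)) * ∫ y : E d, f y * Real.exp (-‖y‖ ^ 2) := by
  set I : ℝ → ℝ := fun s => ∫ y : E d, f y *
    Real.exp (-‖y‖ ^ 2 - (2 * s + s ^ 2) * inner ℝ u y ^ 2) with hI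
  have hI0 : I 0 = ∫ y : E d, f y * Real.exp (-‖y‖ ^ 2) := by
    rw [hI]
    refine integral_congr_ae (Filter.Eventually.of_forall fun y => ?_)
    simp only
    congr 2
    ring
  have h1 := g4_deriv hd hf h0 hk hu
  have h2 : HasDerivAt (fun s : ℝ => (1 + s) ^ ((1 : ℝ) + 1 / d)) (1 + 1 / (d : ℝ)) 0 := by
    have h3 : HasDerivAt (fun s : ℝ => 1 + s) 1 0 := (hasDerivAt_id (0 : ℝ)).const_add 1
    have h4 := h3.rpow_const (p := (1 : ℝ) + 1 / d) (Or.inl (by norm_num))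
    refine h4.congr_deriv ?_
    rw [add_zero, Real.one_rpow, mul_one, one_mul]
  have h3 := h2.mul h1
  have hmin : IsLocalMin ((fun s : ℝ => (1 + s) ^ ((1 : ℝ) + 1 / d)) * I) 0 := by
    have h4 : Ioi (-1 : ℝ) ∈ nhds (0 : ℝ) := Ioi_mem_nhds (by norm_num)
    filter_upwards [h4] with s hs'
    have h5 := hs s hs'
    rw [← hI0] at h5
    change (1 + (0 : ℝ)) ^ ((1 : ℝ) + 1 / d) * I 0 ≤ (1 + s) ^ ((1 : ℝ) + 1 / d) * I s
    rw [add_zero, Real.one_rpow, one_mul]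
    exact h5
  have h4 := hmin.hasDerivAt_eq_zero h3
  rw [add_zero, Real.one_rpow, one_mul] at h4
  change (1 + 1 / (d : ℝ)) * I 0 + _ = 0 at h4
  rw [hI0] at h4
  have h5 : ∫ y : E d, f y * (-(2 * inner ℝ u y ^ 2) * Real.exp (-‖y‖ ^ 2)) =
      -(2 * ∫ y : E d, f y * inner ℝ u y ^ 2 * Real.exp (-‖y‖ ^ 2)) := by
    rw [← integral_const_mul, ← integral_neg]
    refine integral_congr_ae (Filter.Eventually.of_forall fun y => ?_)
    simp only
    ring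
  rw [h5] at h4
  linarith

end Pool.Agent.LibSP52
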