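import Pool.Agent.LibSP52.G3
import Pool.Agent.LibSP52.G4

/-!
[SP G5] GOOD POSITION.  From `exists_min`, `perturb`, `stationary` (`f = N ∘ T₀`), and `radial_moment` with `k = 1` (`f`) and `k = 3`
(`f ⟪u, ·⟫²`), `moment_succ`: for a unit vector `u`: `2 ((d+1)/2) m ∫ f ⟪u,·⟫² ∂sg = (1 + 1/d) m ∫ f ∂sg`, `m > 0`.  General `u` by
scaling.  `T₀` is invertible because `det T₀ = 1` (`LinearEquiv.ofIsUnitDet`, `.toContinuousLinearEquiv`).
-/

set_option autoImplicit false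

open MeasureTheory Set

namespace Pool.Agent.LibSP52

open Pool.Agent.LibSP74

/-- The case of a unit vector. -/
lemma g5_unit {d : ℕ} {N : E d → ℝ} (h : IsN N) (hd : d ≠ 0) {T₀ : E d →L[ℝ] E d} (hdet : T₀.det = 1)
    (hmin : ∀ T : E d →L[ℝ] E d, T.det = 1 → J N T₀ ≤ J N T) {u : E d} (hu : ‖u‖ = 1) :
    ∫ ζ, N (T₀ ζ) * inner ℝ u ζ ^ 2 ∂(sg d) = (∫ ζ, N (T₀ ζ) ∂(sg d)) / d := by
  have hf : Continuous (fun z : E d => N (T₀ z)) := h.cont.comp T₀.continuous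
  have h0 : ∀ z : E d, 0 ≤ N (T₀ z) := fun z => h.nonneg _
  have hk : ∀ r : ℝ, 0 < r → ∀ z : E d, N (T₀ (r • z)) = r * N (T₀ z) := by
    intro r hr z
    rw [map_smul, h.smul, abs_of_pos hr]
  have h1 := (radial_moment hd hf h0 1 (by
    intro r hr z
    rw [hk r hr z, pow_one])).2
  have hf3 : Continuous (fun z : E d => N (T₀ z) * inner ℝ u z ^ 2) :=
    hf.mul ((continuous_const.inner continuous_id).pow 2)
  have h3 := (radial_moment hd hf3 (fun z => mul_nonneg (h0 z) (sq_nonneg _)) 3 (by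
    intro r hr z
    rw [hk r hr z, inner_smul_right]
    ring)).2
  have hst := stationary hd hf h0 hk hu (fun s hs => perturb h hd hdet hmin hu hs)
  rw [h1, h3] at hst
  have e1 : d - 1 + 1 = d := Nat.sub_add_cancel (Nat.one_le_iff_ne_zero.2 hd)
  have e3 : d - 1 + 3 = d + 2 := by omega
  rw [e1, e3, moment_succ d] at hst
  have hv : 0 < vol (nrm d) := (isN_nrm d).vol_pos
  have hm : 0 < ∫ r in Ioi (0 : ℝ), r ^ d * Real.exp (-r ^ 2) := moment_pos d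
  have hd0 : (d : ℝ) ≠ 0 := Nat.cast_ne_zero.2 hd
  have hd1 : (0 : ℝ) < d + 1 := by positivity
  set m := ∫ r in Ioi (0 : ℝ), r ^ d * Real.exp (-r ^ 2) with hmdef
  set v := vol (nrm d) with hvdef
  set A := ∫ ζ, N (T₀ ζ) ∂(sg d) with hA
  set B := ∫ ζ, N (T₀ ζ) * inner ℝ u ζ ^ 2 ∂(sg d) with hB
  rw [eq_div_iff hd0]
  have hc : (d + 1) * v * m ≠ 0 := by positivity
  apply mul_left_cancel₀ hc
  have : (1 + 1 / (d : ℝ)) * (d * v * m * A) = (d + 1) * v * m * A := by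
    field_simp
  rw [this] at hst
  rw [← hst]
  ring

theorem good_position {d : ℕ} {N : E d → ℝ} (h : IsN N) (hd : d ≠ 0) :
    ∃ T : E d ≃L[ℝ] E d, ∀ u : E d, ∫ ζ, N (T ζ) * inner ℝ u ζ ^ 2 ∂(sg d) =
      (∫ ζ, N (T ζ) ∂(sg d)) / d * ‖u‖ ^ 2 := by
  obtain ⟨T₀, hdet, hmin⟩ := exists_min h hd
  refine ⟨ContinuousLinearMap.toContinuousLinearEquivOfDetNeZero T₀ (by rw [hdet]; exact one_ne_zero),
    fun u => ?_⟩
  simp only [ContinuousLinearMap.toContinuousLinearEquivOfDetNeZero_apply]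
  by_cases hu : u = 0
  · subst hu
    simp
  · have hn : 0 < ‖u‖ := norm_pos_iff.2 hu
    have h1 : ‖(‖u‖⁻¹ • u : E d)‖ = 1 := by
      rw [norm_smul, norm_inv, norm_norm, inv_mul_cancel₀ hn.ne']
    have h2 := g5_unit h hd hdet hmin h1
    have h3 : ∀ ζ : E d, N (T₀ ζ) * inner ℝ u ζ ^ 2 =
        ‖u‖ ^ 2 * (N (T₀ ζ) * inner ℝ (‖u‖⁻¹ • u : E d) ζ ^ 2) := by
      intro ζ
      rw [real_inner_smul_left]
      field_simp
    simp_rw [h3]
    rw [integral_const_mul, h2]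
    ring

end Pool.Agent.LibSP52
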