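import Pool.Agent.LibSP52.Defs

/-!
[SP P2] First properties of the cone measure `cm N`.  All proofs: unfold `cm`, `integral_map`, `measure_map`, the map
`x ↦ (N x)⁻¹ • x` is measurable (`h.cont.measurable.inv.smul measurable_id`), the point `0` is a null set for `d ≠ 0`
(`NoAtoms` for `volume` on `E d`, nontrivial), `0 < volume {N ≤ 1} < ∞` (`h.vol_pos`, `h.isCompact_ball`).
-/

set_option autoImplicit false

open MeasureTheory Set
open scoped ENNReal

namespace Pool.Agent.LibSP52

open Pool.Agent.LibSP74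

variable {d : ℕ} {N : E d → ℝ}

private lemma p2_meas (h : IsN N) : Measurable (fun x : E d => (N x)⁻¹ • x) :=
  h.cont.measurable.inv.smul measurable_id

private lemma p2_ne_zero (h : IsN N) : volume {x : E d | N x ≤ 1} ≠ 0 := by
  intro h0
  have h1 := h.vol_pos
  unfold vol at h1
  rw [h0, ENNReal.toReal_zero] at h1
  exact lt_irrefl _ h1

private lemma p2_ne_top (h : IsN N) : volume {x : E d | N x ≤ 1} ≠ ⊤ :=
  (h.isCompact_ball 1).measure_lt_top.ne

theorem isProb_cm (h : IsN N) : IsProbabilityMeasure (cm N) := by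
  constructor
  unfold cm
  rw [Measure.smul_apply, Measure.map_apply (p2_meas h) MeasurableSet.univ, preimage_univ,
    Measure.restrict_apply_univ, smul_eq_mul]
  exact ENNReal.inv_mul_cancel (p2_ne_zero h) (p2_ne_top h)

theorem ae_cm (h : IsN N) (hd : d ≠ 0) : ∀ᵐ x ∂(cm N), N x = 1 := by
  haveI : Nonempty (Fin d) := ⟨⟨0, Nat.pos_of_ne_zero hd⟩⟩
  haveI : Nontrivial (E d) := inferInstance
  have h1 : ∀ᵐ x ∂(volume : Measure (E d)), x ≠ 0 := by
    rw [ae_iff]
    have h2 : {a : E d | ¬ a ≠ 0} = {0} := by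
      ext a
      simp
    rw [h2]
    exact measure_singleton _
  have h3 : ∀ᵐ x ∂(volume.restrict {x : E d | N x ≤ 1}), N ((N x)⁻¹ • x) = 1 := by
    filter_upwards [ae_restrict_of_ae h1] with x hx
    have hp := h.pos x hx
    rw [h.smul_nonneg (inv_nonneg.mpr hp.le), inv_mul_cancel₀ hp.ne']
  have hm : MeasurableSet {x : E d | N x = 1} :=
    measurableSet_eq_fun h.cont.measurable measurable_const
  have h4 : ∀ᵐ y ∂(Measure.map (fun x : E d => (N x)⁻¹ • x)
      (volume.restrict {x : E d | N x ≤ 1})), N y = 1 :=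
    (ae_map_iff (p2_meas h).aemeasurable hm).mpr h3
  unfold cm
  exact Measure.ae_smul_measure h4 _

theorem integral_cm (h : IsN N) {f : E d → ℝ} (hf : Measurable f) :
    ∫ x, f x ∂(cm N) = (vol N)⁻¹ * ∫ x in {x : E d | N x ≤ 1}, f ((N x)⁻¹ • x) := by
  unfold cm
  rw [integral_smul_measure, integral_map (p2_meas h).aemeasurable hf.aestronglyMeasurable,
    ENNReal.toReal_inv, smul_eq_mul]
  rfl

theorem neg_cm (h : IsN N) : (cm N).map (fun x => -x) = cm N := by
  have hK : MeasurableSet {x : E d | N x ≤ 1} := h.measurableSet_ball 1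
  have hneg : (fun x : E d => -x) ⁻¹' {x : E d | N x ≤ 1} = {x : E d | N x ≤ 1} := by
    ext x
    simp only [mem_preimage, mem_ofPred_eq, h.neg]
  have h1 : MeasurePreserving (fun x : E d => -x) (volume.restrict {x : E d | N x ≤ 1})
      (volume.restrict {x : E d | N x ≤ 1}) := by
    have h2 := (Measure.measurePreserving_neg (volume : Measure (E d))).restrict_preimage hK
    have h3 : (Neg.neg : E d → E d) ⁻¹' {x : E d | N x ≤ 1} = {x : E d | N x ≤ 1} := hneg
    rw [h3] at h2
    exact h2
  unfold cm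
  rw [Measure.map_smul, Measure.map_map measurable_neg (p2_meas h)]
  have h4 : (fun x : E d => -x) ∘ (fun x : E d => (N x)⁻¹ • x) =
      (fun x : E d => (N x)⁻¹ • x) ∘ (fun x : E d => -x) := by
    funext x
    simp only [Function.comp_apply, h.neg, smul_neg]
  rw [h4, ← Measure.map_map (p2_meas h) measurable_neg, h1.map_eq]

/-- A measurable function which is bounded on `{N = 1}` is integrable. -/
theorem integrable_cm (h : IsN N) (hd : d ≠ 0) {f : E d → ℝ} (hf : Measurable f) {C : ℝ}
    (hC : ∀ x, N x = 1 → |f x| ≤ C) : Integrable f (cm N) := by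
  haveI := isProb_cm h
  refine Integrable.of_bound hf.aestronglyMeasurable C ?_
  filter_upwards [ae_cm h hd] with x hx
  rw [Real.norm_eq_abs]
  exact hC x hx

/-- The sprawl with the cone measure. -/
theorem sprawl_cm (h : IsN N) : sprawl N = ∫ x, ∫ y, N (x - y) ∂(cm N) ∂(cm N) := by
  haveI := isProb_cm h
  have hm : Measurable (fun p : E d × E d => N (p.1 - p.2)) :=
    h.cont.measurable.comp (measurable_fst.sub measurable_snd)
  have h1 : Measurable (fun x : E d => ∫ y, N (x - y) ∂(cm N)) := by
    have h2 : StronglyMeasurable (fun p : E d × E d => N (p.1 - p.2)) := hm.stronglyMeasurable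
    exact h2.integral_prod_right.measurable
  rw [integral_cm h h1]
  have h3 : ∀ x : E d, ∫ y, N (x - y) ∂(cm N) =
      (vol N)⁻¹ * ∫ y in {x : E d | N x ≤ 1}, N (x - (N y)⁻¹ • y) := by
    intro x
    have h4 : Measurable (fun y : E d => N (x - y)) :=
      h.cont.measurable.comp (measurable_const.sub measurable_id)
    exact integral_cm h h4
  simp only [h3]
  rw [integral_const_mul]
  unfold sprawl
  rw [div_eq_inv_mul, sq, mul_inv, mul_assoc]

end Pool.Agent.LibSP52
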