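import Pool.Agent.LibSP52.P1
import Pool.Agent.LibSP52.P2

/-!
[SP P3] Volumes in polar coordinates.

1. `vol_radial`: `polar` for the indicator of the set; for `N x = 1` (`ae_cm`) and `r > 0`: `r • x` is in the set iff `r ≤ R x`,
   and `∫⁻ r in Ioi 0, r^(d-1) 1[r ≤ R x] = (R x)^d / d`.
2. `vol_ratio`: `vol_radial` for the norm `M` and `R x = (N x)⁻¹`: `N z ≤ 1 ↔ M z ≤ (N ((M z)⁻¹ • z))⁻¹` for `z ≠ 0`.
3. `jensen`: `t ↦ (t^d)⁻¹` is convex on `Ioi 0`; or the tangent inequality `(t^d)⁻¹ ≥ (m^d)⁻¹ - d (t - m) / m^(d+1)` for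
   `t, m > 0` (Bernoulli), integrated with `m = ∫ N ∂sg d > 0`.
-/

set_option autoImplicit false

open MeasureTheory Set
open scoped ENNReal

namespace Pool.Agent.LibSP52

open Pool.Agent.LibSP74

variable {d : ℕ} {N M : E d → ℝ}

private lemma p3_pow (hd : d ≠ 0) {R : ℝ} (hR : 0 ≤ R) :
    ∫⁻ r in Ioc (0 : ℝ) R, ENNReal.ofReal (r ^ (d - 1)) = ENNReal.ofReal (R ^ d / d) := by
  obtain ⟨n, rfl⟩ := Nat.exists_eq_succ_of_ne_zero hd
  have h1 : IntegrableOn (fun r : ℝ => r ^ n) (Ioc 0 R) volume :=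
    (intervalIntegrable_iff_integrableOn_Ioc_of_le hR).mp
      ((continuous_pow n).intervalIntegrable 0 R)
  have h2 : 0 ≤ᵐ[volume.restrict (Ioc (0 : ℝ) R)] fun r : ℝ => r ^ n := by
    filter_upwards [ae_restrict_mem measurableSet_Ioc] with r hr
    exact pow_nonneg hr.1.le n
  have h3 := ofReal_integral_eq_lintegral_ofReal h1 h2
  show ∫⁻ r in Ioc (0 : ℝ) R, ENNReal.ofReal (r ^ n) = ENNReal.ofReal (R ^ (n + 1) / (n + 1 : ℕ))
  rw [← h3, ← intervalIntegral.integral_of_le hR, integral_pow]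
  congr 1
  rw [zero_pow (Nat.succ_ne_zero n), sub_zero]
  push_cast
  ring

theorem vol_radial (h : IsN N) (hd : d ≠ 0) {R : E d → ℝ} (hR : Measurable R) (h0 : ∀ x, 0 ≤ R x) :
    volume {z : E d | N z ≤ R ((N z)⁻¹ • z)} =
      ENNReal.ofReal (vol N) * ∫⁻ x, ENNReal.ofReal (R x ^ d) ∂(cm N) := by
  have hφ : Measurable (fun x : E d => (N x)⁻¹ • x) :=
    h.cont.measurable.inv.smul measurable_id
  have hS : MeasurableSet {z : E d | N z ≤ R ((N z)⁻¹ • z)} :=
    measurableSet_le h.cont.measurable (hR.comp hφ)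
  have hg : Measurable (({z : E d | N z ≤ R ((N z)⁻¹ • z)}).indicator
      (1 : E d → ℝ≥0∞)) := measurable_one.indicator hS
  have h1 := polar h hd hg
  rw [lintegral_indicator_one hS] at h1
  rw [h1]
  have h2 : ∫⁻ x, ∫⁻ r in Ioi (0 : ℝ), ENNReal.ofReal (r ^ (d - 1)) *
      ({z : E d | N z ≤ R ((N z)⁻¹ • z)}).indicator (1 : E d → ℝ≥0∞) (r • x) ∂volume ∂(cm N) =
      ∫⁻ x, ENNReal.ofReal (R x ^ d / d) ∂(cm N) := by
    apply lintegral_congr_ae
    filter_upwards [ae_cm h hd] with x hx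
    have h3 : ∫⁻ r in Ioi (0 : ℝ), ENNReal.ofReal (r ^ (d - 1)) *
        ({z : E d | N z ≤ R ((N z)⁻¹ • z)}).indicator (1 : E d → ℝ≥0∞) (r • x) =
        ∫⁻ r in Ioi (0 : ℝ), (Iic (R x)).indicator
          (fun r : ℝ => ENNReal.ofReal (r ^ (d - 1))) r := by
      apply setLIntegral_congr_fun measurableSet_Ioi
      intro r hr
      have hr0 : (0 : ℝ) < r := hr
      have h4 : N (r • x) = r := by
        rw [h.smul_nonneg hr0.le, hx, mul_one]
      have h5 : (N (r • x))⁻¹ • (r • x) = x := by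
        rw [h4, smul_smul, inv_mul_cancel₀ hr0.ne', one_smul]
      have h6 : r • x ∈ {z : E d | N z ≤ R ((N z)⁻¹ • z)} ↔ r ∈ Iic (R x) := by
        rw [mem_ofPred_eq, h5, h4, mem_Iic]
      show ENNReal.ofReal (r ^ (d - 1)) *
        ({z : E d | N z ≤ R ((N z)⁻¹ • z)}).indicator (1 : E d → ℝ≥0∞) (r • x) =
        (Iic (R x)).indicator (fun r : ℝ => ENNReal.ofReal (r ^ (d - 1))) r
      by_cases h7 : r ∈ Iic (R x)
      · rw [indicator_of_mem h7, indicator_of_mem (h6.mpr h7), Pi.one_apply, mul_one]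
      · rw [indicator_of_notMem h7, indicator_of_notMem (fun h8 => h7 (h6.mp h8)), mul_zero]
    rw [h3, lintegral_indicator measurableSet_Iic, Measure.restrict_restrict measurableSet_Iic,
      inter_comm, Ioi_inter_Iic]
    exact p3_pow hd (h0 x)
  rw [h2]
  have h3 : ∀ x, ENNReal.ofReal (R x ^ d / d) = ENNReal.ofReal (R x ^ d) *
      ENNReal.ofReal ((d : ℝ)⁻¹) := by
    intro x
    rw [div_eq_mul_inv, ENNReal.ofReal_mul (pow_nonneg (h0 x) d)]
  have hd0 : (0 : ℝ) < d := by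
    have := Nat.pos_of_ne_zero hd
    exact_mod_cast this
  rw [lintegral_congr h3, lintegral_mul_const _ ((hR.pow_const d).ennreal_ofReal),
    mul_comm (∫⁻ x, ENNReal.ofReal (R x ^ d) ∂(cm N)), ← mul_assoc, ← ENNReal.ofReal_mul
    (mul_nonneg hd0.le h.vol_pos.le)]
  congr 2
  field_simp

theorem vol_ratio (h : IsN N) (hM : IsN M) (hd : d ≠ 0) :
    vol N = vol M * ∫ x, (N x ^ d)⁻¹ ∂(cm M) := by
  have hmeas : Measurable (fun x : E d => (N x)⁻¹) := h.cont.measurable.inv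
  have h0 : ∀ x : E d, 0 ≤ (N x)⁻¹ := fun x => inv_nonneg.mpr (h.nonneg x)
  have h1 := vol_radial hM hd hmeas h0
  have hset : {z : E d | M z ≤ (N ((M z)⁻¹ • z))⁻¹} = {z : E d | N z ≤ 1} := by
    ext z
    rw [mem_ofPred_eq, mem_ofPred_eq]
    by_cases hz : z = 0
    · rw [hz, smul_zero, hM.zero, h.zero, inv_zero]
      exact ⟨fun _ => zero_le_one, fun _ => le_rfl⟩
    · have hMz := hM.pos z hz
      have hNz := h.pos z hz
      rw [h.smul_nonneg (inv_nonneg.mpr hMz.le), mul_inv, inv_inv, ← div_eq_mul_inv,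
        le_div_iff₀ hNz]
      constructor
      · intro h2
        have h3 : M z * N z ≤ M z * 1 := by rw [mul_one]; exact h2
        exact le_of_mul_le_mul_left h3 hMz
      · intro h2
        calc M z * N z ≤ M z * 1 := mul_le_mul_of_nonneg_left h2 hMz.le
          _ = M z := mul_one _
  rw [hset] at h1
  have h2 := congrArg ENNReal.toReal h1
  rw [ENNReal.toReal_mul, ENNReal.toReal_ofReal hM.vol_pos.le] at h2
  have h3 : ∫ x, (N x ^ d)⁻¹ ∂(cm M) =
      (∫⁻ x, ENNReal.ofReal ((N x)⁻¹ ^ d) ∂(cm M)).toReal := by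
    rw [integral_eq_lintegral_of_nonneg_ae]
    · simp only [inv_pow]
    · exact Filter.Eventually.of_forall fun x => inv_nonneg.mpr (pow_nonneg (h.nonneg x) d)
    · exact ((h.cont.measurable.pow_const d).inv).aestronglyMeasurable
  rw [h3]
  exact h2

private lemma p3_bound (h : IsN N) (hd : d ≠ 0) :
    ∃ c C : ℝ, 0 < c ∧ ∀ x : E d, nrm d x = 1 → c ≤ N x ∧ N x ≤ C := by
  have : Nonempty (Fin d) := ⟨⟨0, Nat.pos_of_ne_zero hd⟩⟩
  have : Nontrivial (E d) := inferInstance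
  have hcs : IsCompact (Metric.sphere (0 : E d) 1) := isCompact_sphere 0 1
  have hne : (Metric.sphere (0 : E d) 1).Nonempty := NormedSpace.sphere_nonempty.2 zero_le_one
  obtain ⟨z, hz, hmin⟩ := hcs.exists_isMinOn hne h.cont.continuousOn
  obtain ⟨w, hw, hmax⟩ := hcs.exists_isMaxOn hne h.cont.continuousOn
  refine ⟨N z, N w, ?_, ?_⟩
  · apply h.pos
    rintro rfl
    simp at hz
  · intro x hx
    have hx' : x ∈ Metric.sphere (0 : E d) 1 := by
      rw [mem_sphere_iff_norm, sub_zero]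
      exact hx
    exact ⟨hmin hx', hmax hx'⟩

private lemma p3_tangent {t m : ℝ} (ht : 0 < t) (hm : 0 < m) (d : ℕ) :
    (m ^ d)⁻¹ * (1 + d * (1 - t / m)) ≤ (t ^ d)⁻¹ := by
  have h1 : (1 : ℝ) + d * (m / t - 1) ≤ (1 + (m / t - 1)) ^ d := by
    apply one_add_mul_le_pow
    have : 0 < m / t := by positivity
    linarith
  have h2 : 1 - t / m ≤ m / t - 1 := by
    have h3 : m / t + t / m - 2 = (m - t) ^ 2 / (m * t) := by
      field_simp
      ring
    have h4 : 0 ≤ (m - t) ^ 2 / (m * t) := by positivity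
    linarith
  have h3 : (1 : ℝ) + d * (1 - t / m) ≤ (m / t) ^ d := by
    have h4 : (d : ℝ) * (1 - t / m) ≤ d * (m / t - 1) :=
      mul_le_mul_of_nonneg_left h2 (Nat.cast_nonneg d)
    have h5 : (1 + (m / t - 1)) ^ d = (m / t) ^ d := by
      congr 1
      ring
    rw [h5] at h1
    linarith
  calc (m ^ d)⁻¹ * (1 + d * (1 - t / m)) ≤ (m ^ d)⁻¹ * (m / t) ^ d :=
        mul_le_mul_of_nonneg_left h3 (by positivity)
    _ = (t ^ d)⁻¹ := by
        rw [div_pow]
        field_simp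

theorem jensen (h : IsN N) (hd : d ≠ 0) :
    1 ≤ (∫ x, N x ∂(sg d)) ^ d * (vol N / vol (nrm d)) := by
  have hn := isN_nrm d
  have : IsProbabilityMeasure (sg d) := isProb_cm hn
  obtain ⟨c, C, hc, hb⟩ := p3_bound h hd
  have hi1 : Integrable (fun x => N x) (sg d) := by
    refine integrable_cm hn hd h.cont.measurable (C := C) ?_
    intro x hx
    rw [abs_of_nonneg (h.nonneg x)]
    exact (hb x hx).2
  have hi2 : Integrable (fun x => (N x ^ d)⁻¹) (sg d) := by
    refine integrable_cm hn hd ((h.cont.measurable.pow_const d).inv) (C := (c ^ d)⁻¹) ?_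
    intro x hx
    rw [abs_of_nonneg (inv_nonneg.mpr (pow_nonneg (h.nonneg x) d))]
    exact inv_anti₀ (pow_pos hc d) (pow_le_pow_left₀ hc.le (hb x hx).1 d)
  have hae : ∀ᵐ x ∂(sg d), nrm d x = 1 := ae_cm hn hd
  obtain ⟨m, hm⟩ : ∃ m, m = ∫ x, N x ∂(sg d) := ⟨_, rfl⟩
  have hmpos : 0 < m := by
    have h1 : ∫ _x : E d, c ∂(sg d) ≤ ∫ x, N x ∂(sg d) := by
      refine integral_mono_ae (integrable_const c) hi1 ?_
      filter_upwards [hae] with x hx
      exact (hb x hx).1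
    rw [integral_const, ← hm] at h1
    simp at h1
    linarith
  have hv : 0 < vol (nrm d) := hn.vol_pos
  have h2 : vol N / vol (nrm d) = ∫ x, (N x ^ d)⁻¹ ∂(sg d) := by
    rw [vol_ratio h hn hd, mul_div_assoc, mul_comm, div_mul_cancel₀ _ hv.ne']
    rfl
  have h3 : (m ^ d)⁻¹ ≤ ∫ x, (N x ^ d)⁻¹ ∂(sg d) := by
    have h4 : ∫ x, (m ^ d)⁻¹ * (1 + d * (1 - N x / m)) ∂(sg d) ≤
        ∫ x, (N x ^ d)⁻¹ ∂(sg d) := by
      refine integral_mono_ae ?_ hi2 ?_
      · exact ((integrable_const (1 : ℝ)).add (((integrable_const (1 : ℝ)).sub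
          (hi1.div_const m)).const_mul (d : ℝ))).const_mul _
      · filter_upwards [hae] with x hx
        exact p3_tangent (lt_of_lt_of_le hc (hb x hx).1) hmpos d
    have h5 : ∫ x, (m ^ d)⁻¹ * (1 + d * (1 - N x / m)) ∂(sg d) = (m ^ d)⁻¹ := by
      have hi3 : Integrable (fun x => 1 - N x / m) (sg d) :=
        (integrable_const (1 : ℝ)).sub (hi1.div_const m)
      have hi4 : Integrable (fun x => (d : ℝ) * (1 - N x / m)) (sg d) := hi3.const_mul _
      rw [integral_const_mul, integral_add (integrable_const (1 : ℝ)) hi4, integral_const_mul,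
        integral_sub (integrable_const (1 : ℝ)) (hi1.div_const m), integral_div, ← hm,
        div_self hmpos.ne']
      simp
    rw [h5] at h4
    exact h4
  rw [h2, ← hm]
  have h6 := mul_le_mul_of_nonneg_left h3 (pow_nonneg hmpos.le d)
  rw [mul_inv_cancel₀ (pow_pos hmpos d).ne'] at h6
  exact h6

end Pool.Agent.LibSP52
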