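import Pool.Agent.LibSP74.BasicA

/-!
[SP P4] The sprawl is invariant under linear maps: substitute `x = T⁻¹ x'`, `y = T⁻¹ y'` in both integrals
(`MeasureTheory.Measure.map_linearMap_addHaar_eq_smul_addHaar`, `integral_map`, `addHaar_preimage_linearMap`,
`LinearEquiv`/`ContinuousLinearEquiv` versions); the determinants cancel against `vol (N ∘ T) = |det T|⁻¹ * vol N`.
-/

set_option autoImplicit false

open MeasureTheory Set

namespace Pool.Agent.LibSP52

open Pool.Agent.LibSP74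

variable {d : ℕ} {N : E d → ℝ}

theorem isN_comp (h : IsN N) (T : E d ≃L[ℝ] E d) : IsN (fun z => N (T z)) where
  cont := h.cont.comp T.continuous
  smul c z := by rw [map_smul, h.smul]
  add_le z w := by rw [map_add]; exact h.add_le _ _
  pos z hz := h.pos _ (fun h0 => hz (T.map_eq_zero_iff.1 h0))

lemma p4_det (T : E d ≃L[ℝ] E d) :
    LinearMap.det ((T : E d →L[ℝ] E d) : E d →ₗ[ℝ] E d) ≠ 0 :=
  (LinearEquiv.isUnit_det' T.toLinearEquiv).ne_zero

/-- The factor of the substitution. -/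
noncomputable def p4_c (T : E d ≃L[ℝ] E d) : ℝ :=
  |(LinearMap.det ((T : E d →L[ℝ] E d) : E d →ₗ[ℝ] E d))⁻¹|

lemma p4_c_pos (T : E d ≃L[ℝ] E d) : 0 < p4_c T :=
  abs_pos.2 (inv_ne_zero (p4_det T))

lemma p4_map (T : E d ≃L[ℝ] E d) :
    Measure.map T (volume : Measure (E d)) = ENNReal.ofReal (p4_c T) • volume :=
  Measure.map_linearMap_addHaar_eq_smul_addHaar volume (p4_det T)

lemma p4_emb (T : E d ≃L[ℝ] E d) : MeasurableEmbedding T :=
  T.toHomeomorph.measurableEmbedding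

lemma p4_int (T : E d ≃L[ℝ] E d) (g : E d → ℝ) (s : Set (E d)) :
    ∫ x in T ⁻¹' s, g (T x) = p4_c T * ∫ x in s, g x := by
  rw [← (p4_emb T).setIntegral_map, p4_map, Measure.restrict_smul, integral_smul_measure,
    ENNReal.toReal_ofReal (p4_c_pos T).le, smul_eq_mul]

lemma p4_vol (T : E d ≃L[ℝ] E d) : vol (fun z => N (T z)) = p4_c T * vol N := by
  unfold vol
  have h1 : {x : E d | N (T x) ≤ 1} = T ⁻¹' {x : E d | N x ≤ 1} := rfl
  rw [h1, ← (p4_emb T).map_apply, p4_map, Measure.smul_apply, smul_eq_mul, ENNReal.toReal_mul,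
    ENNReal.toReal_ofReal (p4_c_pos T).le]

theorem sprawl_comp (h : IsN N) (T : E d ≃L[ℝ] E d) : sprawl (fun z => N (T z)) = sprawl N := by
  have hc := p4_c_pos T
  have h1 : {x : E d | N (T x) ≤ 1} = T ⁻¹' {x : E d | N x ≤ 1} := rfl
  have h2 : (∫ x in {x : E d | N (T x) ≤ 1}, ∫ y in {x : E d | N (T x) ≤ 1},
      N (T ((N (T x))⁻¹ • x - (N (T y))⁻¹ • y))) =
      p4_c T ^ 2 * ∫ x in {x : E d | N x ≤ 1}, ∫ y in {x : E d | N x ≤ 1},
        N ((N x)⁻¹ • x - (N y)⁻¹ • y) := by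
    have h3 : ∀ x : E d, (∫ y in {x : E d | N (T x) ≤ 1},
        N (T ((N (T x))⁻¹ • x - (N (T y))⁻¹ • y))) =
        p4_c T * ∫ y in {x : E d | N x ≤ 1}, N ((N (T x))⁻¹ • T x - (N y)⁻¹ • y) := by
      intro x
      rw [h1, ← p4_int T (fun y => N ((N (T x))⁻¹ • T x - (N y)⁻¹ • y))]
      simp only [map_sub, map_smul]
    simp only [h3]
    rw [integral_const_mul, h1,
      p4_int T (fun x => ∫ y in {x : E d | N x ≤ 1}, N ((N x)⁻¹ • x - (N y)⁻¹ • y))]
    ring
  unfold sprawl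
  rw [p4_vol T, h2, mul_pow, mul_div_mul_left _ _ (pow_ne_zero 2 hc.ne')]

end Pool.Agent.LibSP52
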