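import Pool.Agent.LibSP52.Defs
import Pool.Agent.LibBS39.Uncond

/-!
[SP S3] Blaschke-Santalo for symmetric measurable sets (helper39): Steiner symmetrisation in the
directions `e_1, ..., e_d` (no convexity), then Prekopa-Leindler in exponential coordinates
(`Pool/Agent/LibBS39/Steiner.lean`, `Uncond.lean`; rows S1 and S2 are not needed).
-/

set_option autoImplicit false

open MeasureTheory Set

namespace Pool.Agent.LibSP52

open Pool.Agent.LibSP74

theorem santalo (d : ℕ) : Sant d := by
  intro A B hA _ _ _ hsA _ h
  have h1 := Pool.Agent.LibBS39.santalo hA hsA h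
  have e : Metric.closedBall (0 : E d) 1 = {z : E d | ‖z‖ ≤ 1} := by
    ext z
    simp [Metric.mem_closedBall, dist_zero_right]
  rwa [e] at h1

end Pool.Agent.LibSP52
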