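import Pool.Agent.LibSP52.Defs
import Pool.Agent.LibBS39.Coupling

/-!
[SP W] THEOREM W (helper39): finite partitions into cones, finite transport duality, potentials and
Blaschke-Santalo for exponential sets (`Pool/Agent/LibBS39/`); no use of KD1, KD2, KD3, W1.
-/

set_option autoImplicit false

open MeasureTheory Set

namespace Pool.Agent.LibSP52

open Pool.Agent.LibSP74

variable {d : ℕ} {N : E d → ℝ}

theorem thmW (h : IsN N) (hd : d ≠ 0) (_hSt : Sant d) (S : ℝ)
    (hS : ∀ π : Measure (E d × E d), IsCpl N π → ∫ p, inner ℝ p.1 p.2 ∂π ≤ S) :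
    0 ≤ S ∧ vol N / vol (nrm d) ≤ S ^ d :=
  Pool.Agent.LibBS39.thmW h hd S hS

end Pool.Agent.LibSP52
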