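import Pool.Agent.LibSP52.M
import Pool.Agent.LibSP52.B3
import Pool.Agent.LibSP52.G5
import Pool.Agent.LibSP52.P3
import Pool.Agent.LibSP52.P4
import Pool.Agent.LibSP52.W
import Pool.Agent.LibSP52.S3

/-!
[SP F2] THE LOWER BOUND in dimension 3.  `good_position` and `sprawl_comp`: we may assume that `N` is in good position.
`a = ∫ N ∂sg 3 > 0`, `e = sprawl N`, `S = e / (4/3 a)`: `main_ineq` gives the hypothesis of `thmW` (`santalo 3`), so
`vol N / vol nrm ≤ S^3`; `jensen`: `1 ≤ a^3 vol N / vol nrm ≤ (a S)^3 = (e / (4/3))^3`, hence `e ≥ 4/3 = sprawl (nrm 3)` (`ball3`).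
-/

set_option autoImplicit false

open MeasureTheory Set

namespace Pool.Agent.LibSP52

open Pool.Agent.LibSP74

private theorem f2_good {N : E 3 → ℝ} (h : IsN N)
    (hg : ∀ u : E 3, ∫ ζ, N ζ * inner ℝ u ζ ^ 2 ∂(sg 3) = (∫ ζ, N ζ ∂(sg 3)) / 3 * ‖u‖ ^ 2) :
    4 / 3 ≤ sprawl N := by
  have hd : (3 : ℕ) ≠ 0 := by norm_num
  have hj := jensen h hd
  have ha0 : 0 ≤ ∫ ζ, N ζ ∂(sg 3) := integral_nonneg fun ζ => h.nonneg ζ
  have ha : 0 < ∫ ζ, N ζ ∂(sg 3) := by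
    rcases ha0.eq_or_lt with h0 | h0
    · rw [← h0] at hj
      norm_num at hj
    · exact h0
  have h4 : 0 < 4 / 3 * ∫ ζ, N ζ ∂(sg 3) := by positivity
  obtain ⟨hS0, hS⟩ := thmW h hd (santalo 3) (sprawl N / (4 / 3 * ∫ ζ, N ζ ∂(sg 3)))
    (fun π hπ => by
      rw [le_div_iff₀ h4, mul_comm]
      exact main_ineq h hg hπ)
  have h5 : 1 ≤ (sprawl N / (4 / 3)) ^ 3 := by
    calc (1 : ℝ) ≤ (∫ ζ, N ζ ∂(sg 3)) ^ 3 * (vol N / vol (nrm 3)) := hj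
      _ ≤ (∫ ζ, N ζ ∂(sg 3)) ^ 3 * (sprawl N / (4 / 3 * ∫ ζ, N ζ ∂(sg 3))) ^ 3 :=
        mul_le_mul_of_nonneg_left hS (pow_nonneg ha0 3)
      _ = (sprawl N / (4 / 3)) ^ 3 := by
        rw [← mul_pow]
        congr 1
        field_simp
  have h6 : 0 ≤ sprawl N / (4 / 3) := by
    have h7 : sprawl N / (4 / 3) =
        (∫ ζ, N ζ ∂(sg 3)) * (sprawl N / (4 / 3 * ∫ ζ, N ζ ∂(sg 3))) := by
      field_simp
    rw [h7]
    exact mul_nonneg ha0 hS0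
  have h8 : 1 ≤ sprawl N / (4 / 3) := by
    by_contra hlt
    have h9 : sprawl N / (4 / 3) < 1 := lt_of_not_ge hlt
    have h10 := pow_lt_one₀ h6 h9 (n := 3) (by norm_num)
    exact absurd h5 (not_le.2 h10)
  rw [le_div_iff₀ (by norm_num)] at h8
  linarith

theorem lower3 {N : E 3 → ℝ} (h : IsN N) : 4 / 3 ≤ sprawl N := by
  obtain ⟨T, hT⟩ := good_position h (by norm_num : (3 : ℕ) ≠ 0)
  rw [← sprawl_comp h T]
  refine f2_good (isN_comp h T) fun u => ?_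
  have h1 := hT u
  push_cast at h1
  exact h1

end Pool.Agent.LibSP52
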