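import Pool.Agent.LibSP52.P1
import Pool.Agent.LibSP52.P2

/-!
[SP G1] Gaussian integrals of homogeneous functions: `polar` for `nrm d` and `g z = ofReal (f z exp (-‖z‖²))`;
`f (r ζ) = r^k f ζ`, `‖ζ‖ = 1`.  The second statement: `integral_rpow_mul_exp_neg_rpow`/`Real.Gamma_add_one`, or integration by parts
(derivative of `r^(n+1) exp (-r²)`).
-/

set_option autoImplicit false

open MeasureTheory Set

namespace Pool.Agent.LibSP52

open Pool.Agent.LibSP74

lemma g1_moment (n : ℕ) : ∫ r in Ioi (0 : ℝ), r ^ n * Real.exp (-r ^ 2) =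
    1 / 2 * Real.Gamma (((n : ℝ) + 1) / 2) := by
  have h := integral_rpow_mul_exp_neg_rpow (p := 2) (q := (n : ℝ)) (by norm_num)
    (by have : (0 : ℝ) ≤ (n : ℝ) := Nat.cast_nonneg n
        linarith)
  rw [← h]
  refine setIntegral_congr_fun measurableSet_Ioi fun r hr => ?_
  have hr0 : (0 : ℝ) ≤ r := (mem_Ioi.1 hr).le
  simp only [Real.rpow_natCast, Real.rpow_two]

theorem moment_succ (n : ℕ) : ∫ r in Ioi (0 : ℝ), r ^ (n + 2) * Real.exp (-r ^ 2) =
    (n + 1) / 2 * ∫ r in Ioi (0 : ℝ), r ^ n * Real.exp (-r ^ 2) := by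
  rw [g1_moment, g1_moment]
  have h0 : (0 : ℝ) < ((n : ℝ) + 1) / 2 := by positivity
  have h1 : (((n + 2 : ℕ) : ℝ) + 1) / 2 = ((n : ℝ) + 1) / 2 + 1 := by push_cast; ring
  rw [h1, Real.Gamma_add_one h0.ne']
  ring

theorem moment_pos (n : ℕ) : 0 < ∫ r in Ioi (0 : ℝ), r ^ n * Real.exp (-r ^ 2) := by
  rw [g1_moment]
  have h0 : (0 : ℝ) < ((n : ℝ) + 1) / 2 := by positivity
  have := Real.Gamma_pos_of_pos h0
  positivity

lemma g1_lintegral (n : ℕ) : ∫⁻ r in Ioi (0 : ℝ), ENNReal.ofReal (r ^ n * Real.exp (-r ^ 2)) =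
    ENNReal.ofReal (∫ r in Ioi (0 : ℝ), r ^ n * Real.exp (-r ^ 2)) := by
  have hint : IntegrableOn (fun r : ℝ => r ^ n * Real.exp (-r ^ 2)) (Ioi 0) := by
    by_contra hc
    have := moment_pos n
    rw [integral_undef hc] at this
    exact lt_irrefl _ this
  rw [ofReal_integral_eq_lintegral_ofReal hint]
  refine (ae_restrict_iff' measurableSet_Ioi).2 (Filter.Eventually.of_forall fun r hr => ?_)
  have hr0 : (0 : ℝ) ≤ r := (mem_Ioi.1 hr).le
  positivity

theorem radial_moment {d : ℕ} (hd : d ≠ 0) {f : E d → ℝ} (hf : Continuous f) (h0 : ∀ z, 0 ≤ f z) (k : ℕ)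
    (hk : ∀ r : ℝ, 0 < r → ∀ z, f (r • z) = r ^ k * f z) :
    Integrable (fun z : E d => f z * Real.exp (-‖z‖ ^ 2)) ∧
      ∫ z : E d, f z * Real.exp (-‖z‖ ^ 2) =
        d * vol (nrm d) * (∫ r in Ioi (0 : ℝ), r ^ (d - 1 + k) * Real.exp (-r ^ 2)) *
          ∫ ζ, f ζ ∂(sg d) := by
  have hN := isN_nrm d
  have hfint : Integrable f (sg d) := by
    obtain ⟨C, hC⟩ := (isCompact_sphere (0 : E d) 1).exists_bound_of_continuousOn hf.continuousOn
    refine integrable_cm hN hd hf.measurable (C := C) fun x hx => ?_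
    exact hC x (by rw [mem_sphere_zero_iff_norm]; exact hx)
  have hcont : Continuous fun z : E d => f z * Real.exp (-‖z‖ ^ 2) := by fun_prop
  have hnn : ∀ z : E d, 0 ≤ f z * Real.exp (-‖z‖ ^ 2) := fun z =>
    mul_nonneg (h0 z) (Real.exp_pos _).le
  have hM := moment_pos (d - 1 + k)
  have hvp := hN.vol_pos
  have hkey : ∫⁻ z : E d, ENNReal.ofReal (f z * Real.exp (-‖z‖ ^ 2)) =
      ENNReal.ofReal (d * vol (nrm d) * (∫ r in Ioi (0 : ℝ), r ^ (d - 1 + k) * Real.exp (-r ^ 2)) *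
          ∫ ζ, f ζ ∂(sg d)) := by
    rw [polar hN hd (g := fun z : E d => ENNReal.ofReal (f z * Real.exp (-‖z‖ ^ 2)))
      hcont.measurable.ennreal_ofReal]
    have h1 : ∫⁻ x, ∫⁻ r in Ioi (0 : ℝ), ENNReal.ofReal (r ^ (d - 1)) *
        ENNReal.ofReal (f (r • x) * Real.exp (-‖r • x‖ ^ 2)) ∂volume ∂(cm (nrm d)) =
        ∫⁻ x, ENNReal.ofReal (f x) * ENNReal.ofReal
          (∫ r in Ioi (0 : ℝ), r ^ (d - 1 + k) * Real.exp (-r ^ 2)) ∂(cm (nrm d)) := by
      refine lintegral_congr_ae ?_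
      filter_upwards [ae_cm hN hd] with x hx
      rw [← g1_lintegral, ← lintegral_const_mul']
      · refine setLIntegral_congr_fun measurableSet_Ioi fun r hr => ?_
        have hr0 : 0 < r := mem_Ioi.1 hr
        have hx1 : ‖x‖ = 1 := hx
        rw [← ENNReal.ofReal_mul (by positivity), ← ENNReal.ofReal_mul (h0 x), hk r hr0, norm_smul,
          hx1, mul_one, Real.norm_eq_abs, sq_abs, pow_add]
        congr 1
        ring
      · exact ENNReal.ofReal_ne_top
    rw [h1, lintegral_mul_const' _ _ ENNReal.ofReal_ne_top, show cm (nrm d) = sg d from rfl,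
      ← ofReal_integral_eq_lintegral_ofReal hfint (Filter.Eventually.of_forall h0),
      ← ENNReal.ofReal_mul (integral_nonneg h0), ← ENNReal.ofReal_mul (by positivity)]
    congr 1
    ring
  have hint : Integrable (fun z : E d => f z * Real.exp (-‖z‖ ^ 2)) := by
    rw [← lintegral_ofReal_ne_top_iff_integrable hcont.aestronglyMeasurable
      (Filter.Eventually.of_forall hnn), hkey]
    exact ENNReal.ofReal_ne_top
  refine ⟨hint, ?_⟩
  rw [integral_eq_lintegral_of_nonneg_ae (Filter.Eventually.of_forall hnn)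
    hcont.aestronglyMeasurable, hkey, ENNReal.toReal_ofReal]
  have h2 : 0 ≤ ∫ ζ, f ζ ∂(sg d) := integral_nonneg h0
  positivity

end Pool.Agent.LibSP52
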