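import Pool.Agent.LibSP52.G1

/-!
[SP G2] Existence of the minimiser.  PAPER PROOF.  `J N T = ∫ N (T z) exp (-‖z‖²)`.  `J` is continuous in `T` (`N (T z) ≤ C ‖T‖ ‖z‖`,
dominated convergence; or Lipschitz: `|J T - J T'| ≤ C ‖T - T'‖ ∫ ‖z‖ exp (-‖z‖²)`).  `J N T ≥ c ‖T‖` with `c > 0`: `N z ≥ m ‖z‖`,
and by compactness of `{‖T‖ = 1}` and homogeneity (`J` is continuous and positive there) it is enough that `J N T > 0` for `T ≠ 0`.
The set `{det T = 1}` is closed, contains the identity, and `{T | det T = 1, J N T ≤ J N id}` is compact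
(`E d →L[ℝ] E d` is finite dimensional, so proper): `IsCompact.exists_isMinOn`.
-/

set_option autoImplicit false

open MeasureTheory Set

namespace Pool.Agent.LibSP52

open Pool.Agent.LibSP74

/-- The functional of the good position. -/
noncomputable def J {d : ℕ} (N : E d → ℝ) (T : E d →L[ℝ] E d) : ℝ :=
  ∫ z : E d, N (T z) * Real.exp (-‖z‖ ^ 2)

lemma g2_int {d : ℕ} {N : E d → ℝ} (h : IsN N) (hd : d ≠ 0) (T : E d →L[ℝ] E d) :
    Integrable (fun z : E d => N (T z) * Real.exp (-‖z‖ ^ 2)) :=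
  (radial_moment hd (f := fun z => N (T z)) (h.cont.comp T.continuous) (fun z => h.nonneg _) 1
    (fun r hr z => by rw [map_smul, h.smul_nonneg hr.le, pow_one])).1

lemma g2_add {d : ℕ} {N : E d → ℝ} (h : IsN N) (hd : d ≠ 0) (T T' : E d →L[ℝ] E d) :
    J N (T + T') ≤ J N T + J N T' := by
  unfold J
  rw [← integral_add (g2_int h hd T) (g2_int h hd T')]
  refine integral_mono (g2_int h hd _) ((g2_int h hd T).add (g2_int h hd T')) ?_
  intro z
  show N (T z + T' z) * Real.exp (-‖z‖ ^ 2) ≤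
    N (T z) * Real.exp (-‖z‖ ^ 2) + N (T' z) * Real.exp (-‖z‖ ^ 2)
  rw [← add_mul]
  exact mul_le_mul_of_nonneg_right (h.add_le _ _) (Real.exp_pos _).le

lemma g2_smul {d : ℕ} {N : E d → ℝ} (h : IsN N) (c : ℝ) (T : E d →L[ℝ] E d) :
    J N (c • T) = |c| * J N T := by
  unfold J
  rw [← integral_const_mul]
  congr 1
  ext z
  show N (c • T z) * Real.exp (-‖z‖ ^ 2) = |c| * (N (T z) * Real.exp (-‖z‖ ^ 2))
  rw [h.smul, mul_assoc]

lemma g2_convex {d : ℕ} {N : E d → ℝ} (h : IsN N) (hd : d ≠ 0) :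
    ConvexOn ℝ univ (J N : (E d →L[ℝ] E d) → ℝ) := by
  refine ⟨convex_univ, ?_⟩
  intro T _ T' _ a b ha hb _
  refine (g2_add h hd _ _).trans ?_
  rw [g2_smul h, g2_smul h, abs_of_nonneg ha, abs_of_nonneg hb, smul_eq_mul, smul_eq_mul]

lemma g2_cont {d : ℕ} {N : E d → ℝ} (h : IsN N) (hd : d ≠ 0) :
    Continuous (J N : (E d →L[ℝ] E d) → ℝ) := by
  rw [← continuousOn_univ]
  exact (g2_convex h hd).continuousOn isOpen_univ

lemma g2_pos {d : ℕ} {N : E d → ℝ} (h : IsN N) (hd : d ≠ 0) {T : E d →L[ℝ] E d} (hT : T ≠ 0) :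
    0 < J N T := by
  unfold J
  have hc : Continuous (fun z : E d => N (T z) * Real.exp (-‖z‖ ^ 2)) :=
    (h.cont.comp T.continuous).mul (Real.continuous_exp.comp ((continuous_norm.pow 2).neg))
  rw [integral_pos_iff_support_of_nonneg
    (fun z => mul_nonneg (h.nonneg _) (Real.exp_pos _).le) (g2_int h hd T)]
  refine hc.isOpen_support.measure_pos volume ?_
  by_contra hne
  rw [Set.not_nonempty_iff_eq_empty] at hne
  apply hT
  ext1 z
  by_contra hz
  have hz' : z ∈ Function.support (fun z : E d => N (T z) * Real.exp (-‖z‖ ^ 2)) := by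
    rw [Function.mem_support]
    exact (mul_pos (h.pos _ hz) (Real.exp_pos _)).ne'
  rw [hne] at hz'
  exact hz'

lemma g2_lower {d : ℕ} {N : E d → ℝ} (h : IsN N) (hd : d ≠ 0) :
    ∃ m : ℝ, 0 < m ∧ ∀ T : E d →L[ℝ] E d, m * ‖T‖ ≤ J N T := by
  have hcs : IsCompact (Metric.sphere (0 : E d →L[ℝ] E d) 1) := isCompact_sphere _ _
  rcases (Metric.sphere (0 : E d →L[ℝ] E d) 1).eq_empty_or_nonempty with he | hne
  · refine ⟨1, one_pos, ?_⟩
    intro T
    have hT0 : T = 0 := by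
      by_contra hT
      have hn : ‖T‖ ≠ 0 := norm_ne_zero_iff.2 hT
      have : ‖T‖⁻¹ • T ∈ Metric.sphere (0 : E d →L[ℝ] E d) 1 := by
        rw [mem_sphere_zero_iff_norm, norm_smul, norm_inv, norm_norm, inv_mul_cancel₀ hn]
      rw [he] at this
      exact this
    subst hT0
    rw [norm_zero, mul_zero]
    unfold J
    exact integral_nonneg (fun z => mul_nonneg (h.nonneg _) (Real.exp_pos _).le)
  · obtain ⟨T₁, hT₁, hmin⟩ := hcs.exists_isMinOn hne (g2_cont h hd).continuousOn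
    rw [mem_sphere_zero_iff_norm] at hT₁
    have hT₁0 : T₁ ≠ 0 := by
      intro h0
      rw [h0, norm_zero] at hT₁
      exact zero_ne_one hT₁
    refine ⟨J N T₁, g2_pos h hd hT₁0, ?_⟩
    intro T
    by_cases hT : T = 0
    · subst hT
      rw [norm_zero, mul_zero]
      unfold J
      exact integral_nonneg (fun z => mul_nonneg (h.nonneg _) (Real.exp_pos _).le)
    · have hn : 0 < ‖T‖ := norm_pos_iff.2 hT
      have hmem : ‖T‖⁻¹ • T ∈ Metric.sphere (0 : E d →L[ℝ] E d) 1 := by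
        rw [mem_sphere_zero_iff_norm, norm_smul, norm_inv, norm_norm, inv_mul_cancel₀ hn.ne']
      have h1 : J N T₁ ≤ J N (‖T‖⁻¹ • T) := hmin hmem
      rw [g2_smul h, abs_of_pos (inv_pos.2 hn)] at h1
      calc J N T₁ * ‖T‖ ≤ (‖T‖⁻¹ * J N T) * ‖T‖ := mul_le_mul_of_nonneg_right h1 hn.le
        _ = J N T := by field_simp

theorem exists_min {d : ℕ} {N : E d → ℝ} (h : IsN N) (hd : d ≠ 0) :
    ∃ T₀ : E d →L[ℝ] E d, T₀.det = 1 ∧
      ∀ T : E d →L[ℝ] E d, T.det = 1 → J N T₀ ≤ J N T := by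
  obtain ⟨m, hm, hlow⟩ := g2_lower h hd
  set I : E d →L[ℝ] E d := ContinuousLinearMap.id ℝ (E d) with hI
  have hIdet : I.det = 1 := by
    rw [hI]
    show LinearMap.det ((ContinuousLinearMap.id ℝ (E d) : E d →L[ℝ] E d) : E d →ₗ[ℝ] E d) = 1
    exact LinearMap.det_id
  have hclosed : IsClosed {T : E d →L[ℝ] E d | T.det = 1 ∧ J N T ≤ J N I} :=
    (isClosed_eq ContinuousLinearMap.continuous_det continuous_const).inter
      (isClosed_le (g2_cont h hd) continuous_const)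
  have hbdd : Bornology.IsBounded {T : E d →L[ℝ] E d | T.det = 1 ∧ J N T ≤ J N I} := by
    refine (Metric.isBounded_closedBall (x := (0 : E d →L[ℝ] E d)) (r := J N I / m)).subset ?_
    rintro T ⟨-, hT⟩
    rw [mem_closedBall_zero_iff, le_div_iff₀ hm, mul_comm]
    exact (hlow T).trans hT
  have hcomp : IsCompact {T : E d →L[ℝ] E d | T.det = 1 ∧ J N T ≤ J N I} :=
    Metric.isCompact_of_isClosed_isBounded hclosed hbdd
  obtain ⟨T₀, hT₀, hmin⟩ := hcomp.exists_isMinOn ⟨I, hIdet, le_refl _⟩ (g2_cont h hd).continuousOn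
  refine ⟨T₀, hT₀.1, ?_⟩
  intro T hT
  by_cases hle : J N T ≤ J N I
  · exact hmin ⟨hT, hle⟩
  · exact hT₀.2.trans (not_le.1 hle).le

end Pool.Agent.LibSP52
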