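import Pool.Agent.LibSP52.G2

/-!
[SP G3] Perturbation.  PAPER PROOF.  `P y = y + s ⟪u, y⟫ u` (`‖u‖ = 1`, `s > -1`): `det P = 1 + s`,
inverse `z ↦ z - s/(1+s) ⟪u, z⟫ u`, `‖P y‖² = ‖y‖² + (2 s + s²) ⟪u, y⟫²`.  `T = (1+s)^(1/d) T₀ ∘ P⁻¹` has `det T = 1`, so
`J T₀ ≤ J T = (1+s)^(1/d) ∫ N (T₀ P⁻¹ z) exp (-‖z‖²) dz`, and `z = P y` gives the claim.
-/

set_option autoImplicit false

open MeasureTheory Set

namespace Pool.Agent.LibSP52

open Pool.Agent.LibSP74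

/-- The map `y ↦ y + c ⟪u, y⟫ u`. -/
noncomputable def g3_P {d : ℕ} (u : E d) (c : ℝ) : E d →ₗ[ℝ] E d :=
  LinearMap.transvection (c • (innerₛₗ ℝ u)) u

lemma g3_P_apply {d : ℕ} (u : E d) (c : ℝ) (y : E d) :
    g3_P u c y = y + (c * inner ℝ u y) • u := by
  unfold g3_P
  rw [LinearMap.transvection.apply]
  rfl

lemma g3_P_det {d : ℕ} {u : E d} (hu : ‖u‖ = 1) (c : ℝ) : LinearMap.det (g3_P u c) = 1 + c := by
  unfold g3_P
  rw [LinearMap.transvection.det]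
  have : (c • (innerₛₗ ℝ u)) u = c := by
    rw [LinearMap.smul_apply, innerₛₗ_apply_apply, real_inner_self_eq_norm_sq, hu]
    simp
  rw [this]

lemma g3_QP {d : ℕ} {u : E d} (hu : ‖u‖ = 1) {s : ℝ} (hs : -1 < s) (y : E d) :
    g3_P u (-(s / (1 + s))) (g3_P u s y) = y := by
  have h1 : (1 + s) ≠ 0 := by linarith
  have huu : inner ℝ u u = 1 := by rw [real_inner_self_eq_norm_sq, hu]; norm_num
  rw [g3_P_apply, g3_P_apply, inner_add_right, inner_smul_right, huu, add_assoc, ← add_smul]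
  have : s * inner ℝ u y + -(s / (1 + s)) * (inner ℝ u y + s * inner ℝ u y * 1) = 0 := by
    field_simp
    ring
  rw [this, zero_smul, add_zero]

lemma g3_norm {d : ℕ} {u : E d} (hu : ‖u‖ = 1) (s : ℝ) (y : E d) :
    ‖g3_P u s y‖ ^ 2 = ‖y‖ ^ 2 + (2 * s + s ^ 2) * inner ℝ u y ^ 2 := by
  rw [g3_P_apply, norm_add_sq_real, inner_smul_right, norm_smul, hu, mul_one, Real.norm_eq_abs,
    sq_abs, real_inner_comm]
  ring

lemma g3_cov {d : ℕ} {u : E d} (hu : ‖u‖ = 1) {s : ℝ} (hs : -1 < s) (g : E d → ℝ) :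
    ∫ z, g z = (1 + s) * ∫ y, g (g3_P u s y) := by
  have h1 : 0 < 1 + s := by linarith
  have hdet : LinearMap.det (g3_P u s) ≠ 0 := by rw [g3_P_det hu]; exact h1.ne'
  have hmap := Measure.map_linearMap_addHaar_eq_smul_addHaar (volume : Measure (E d)) hdet
  have hemb : MeasurableEmbedding (g3_P u s) := by
    have := ((g3_P u s).equivOfDetNeZero hdet).toContinuousLinearEquiv.toHomeomorph.toMeasurableEquiv.measurableEmbedding
    exact this
  have h2 : ∫ y, g (g3_P u s y) = ∫ z, g z ∂(Measure.map (g3_P u s) volume) :=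
    (hemb.integral_map g).symm
  rw [h2, hmap, integral_smul_measure, g3_P_det hu, abs_of_pos (inv_pos.2 h1),
    ENNReal.toReal_ofReal (inv_pos.2 h1).le, smul_eq_mul, ← mul_assoc, mul_inv_cancel₀ h1.ne', one_mul]

theorem perturb {d : ℕ} {N : E d → ℝ} (h : IsN N) (hd : d ≠ 0) {T₀ : E d →L[ℝ] E d} (hdet : T₀.det = 1)
    (hmin : ∀ T : E d →L[ℝ] E d, T.det = 1 → J N T₀ ≤ J N T) {u : E d} (hu : ‖u‖ = 1) {s : ℝ}
    (hs : -1 < s) :
    J N T₀ ≤ (1 + s) ^ ((1 : ℝ) + 1 / d) *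
      ∫ y : E d, N (T₀ y) * Real.exp (-‖y‖ ^ 2 - (2 * s + s ^ 2) * inner ℝ u y ^ 2) := by
  have h1 : 0 < 1 + s := by linarith
  have hd' : (d : ℝ) ≠ 0 := Nat.cast_ne_zero.2 hd
  set Q : E d →L[ℝ] E d := LinearMap.toContinuousLinearMap (g3_P u (-(s / (1 + s)))) with hQ
  have hQa : ∀ z, Q z = g3_P u (-(s / (1 + s))) z := fun z => rfl
  have hQdet : Q.det = (1 + s)⁻¹ := by
    have : Q.det = LinearMap.det (g3_P u (-(s / (1 + s)))) := rfl
    rw [this, g3_P_det hu]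
    field_simp
    ring
  set a : ℝ := (1 + s) ^ (1 / (d : ℝ)) with ha
  have ha0 : 0 ≤ a := Real.rpow_nonneg h1.le _
  have had : a ^ d = 1 + s := by
    rw [ha, ← Real.rpow_natCast, ← Real.rpow_mul h1.le, one_div_mul_cancel hd', Real.rpow_one]
  have hTdet : (a • (T₀.comp Q)).det = 1 := by
    have e1 : (a • (T₀.comp Q)).det =
        LinearMap.det (a • ((T₀ : E d →ₗ[ℝ] E d) ∘ₗ (Q : E d →ₗ[ℝ] E d))) := rfl
    have e2 : LinearMap.det (T₀ : E d →ₗ[ℝ] E d) = 1 := hdet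
    have e3 : LinearMap.det (Q : E d →ₗ[ℝ] E d) = (1 + s)⁻¹ := hQdet
    rw [e1, LinearMap.det_smul, finrank_euclideanSpace_fin, LinearMap.det_comp, e2, e3, had, one_mul,
      mul_inv_cancel₀ h1.ne']
  have hJ := hmin _ hTdet
  refine hJ.trans (le_of_eq ?_)
  have e4 : J N (a • (T₀.comp Q)) = a * ∫ z : E d, N (T₀ (Q z)) * Real.exp (-‖z‖ ^ 2) := by
    unfold J
    rw [← integral_const_mul]
    refine integral_congr_ae (Filter.Eventually.of_forall fun z => ?_)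
    change N (a • (T₀ (Q z))) * Real.exp (-‖z‖ ^ 2) = a * (N (T₀ (Q z)) * Real.exp (-‖z‖ ^ 2))
    rw [h.smul_nonneg ha0, mul_assoc]
  rw [e4, g3_cov hu hs (fun z => N (T₀ (Q z)) * Real.exp (-‖z‖ ^ 2)), ← mul_assoc]
  congr 1
  · rw [ha, Real.rpow_add h1, Real.rpow_one, mul_comm]
  · refine integral_congr_ae (Filter.Eventually.of_forall fun y => ?_)
    change N (T₀ (Q (g3_P u s y))) * Real.exp (-‖g3_P u s y‖ ^ 2) =
      N (T₀ y) * Real.exp (-‖y‖ ^ 2 - (2 * s + s ^ 2) * inner ℝ u y ^ 2)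
    rw [hQa, g3_QP hu hs, g3_norm hu]
    congr 2
    ring

end Pool.Agent.LibSP52
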