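import Pool.Agent.LibSP52.P1
import Pool.Agent.LibSP52.P2

/-!
[SP K1] Polar coordinates in a ball which contains the origin (`d = 3`).  PAPER PROOF.  `‖t‖ < ρ`.  For a unit vector `ζ` and `r > 0`:
`‖t - r ζ‖ ≤ ρ ↔ r² - 2 r c + ‖t‖² ≤ ρ² ↔ r ≤ c + D`, `c = ⟪t, ζ⟫`, `D = √(c² + e)`, `e = ρ² - ‖t‖² > 0` (`c - D < 0`).
`polar` (for `nrm 3`, `g z = ofReal (N z) 1[‖t - z‖ ≤ ρ]`) gives `∫ = 3 vol ∫ N(ζ) ∫_0^{c + D} r³ dr dσ = (3 vol / 4) ∫ N(ζ) (c + D)^4 dσ`.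
By `neg_cm` (`N` even, `c(-ζ) = -c(ζ)`) the integral of `N(ζ) (c + D)^4` is the integral of
`N(ζ) ((D + c)^4 + (D - c)^4) / 2 = N(ζ) (D^4 + 6 D² c² + c^4) = N(ζ) (8 c^4 + 8 e c² + e²)`.
-/

set_option autoImplicit false

open MeasureTheory Set

namespace Pool.Agent.LibSP52

open Pool.Agent.LibSP74

lemma k1_iff {t ζ : E 3} (hζ : ‖ζ‖ = 1) {ρ r : ℝ} (hr : 0 < r) (ht : ‖t‖ < ρ) :
    ‖t - r • ζ‖ ≤ ρ ↔
      r ≤ inner ℝ t ζ + √(inner ℝ t ζ ^ 2 + (ρ ^ 2 - ‖t‖ ^ 2)) := by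
  have hρ : 0 < ρ := lt_of_le_of_lt (norm_nonneg t) ht
  have he0 : 0 < ρ ^ 2 - ‖t‖ ^ 2 := by nlinarith [norm_nonneg t]
  obtain ⟨c, hc⟩ : ∃ c : ℝ, c = inner ℝ t ζ := ⟨_, rfl⟩
  obtain ⟨e, he⟩ : ∃ e : ℝ, e = ρ ^ 2 - ‖t‖ ^ 2 := ⟨_, rfl⟩
  have hn : ‖t - r • ζ‖ ^ 2 = ‖t‖ ^ 2 - 2 * (r * c) + r ^ 2 := by
    rw [norm_sub_sq_real, real_inner_smul_right, norm_smul, hζ, mul_one, Real.norm_eq_abs,
      sq_abs, ← hc]
  rw [← hc, ← he]
  rw [← he] at he0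
  have hD : 0 ≤ c ^ 2 + e := by positivity
  have hDs : √(c ^ 2 + e) ^ 2 = c ^ 2 + e := Real.sq_sqrt hD
  have hD0 : 0 ≤ √(c ^ 2 + e) := Real.sqrt_nonneg _
  have hcD : c ≤ √(c ^ 2 + e) := by
    refine Real.le_sqrt_of_sq_le ?_
    linarith
  constructor
  · intro h1
    have h2 : ‖t - r • ζ‖ ^ 2 ≤ ρ ^ 2 := by
      have h3 := norm_nonneg (t - r • ζ)
      nlinarith
    rw [hn] at h2
    have h4 : (r - c) ^ 2 ≤ √(c ^ 2 + e) ^ 2 := by
      rw [hDs]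
      nlinarith
    have h5 := abs_le_of_sq_le_sq' h4 hD0
    linarith [h5.2]
  · intro h1
    have h4 : (r - c) ^ 2 ≤ √(c ^ 2 + e) ^ 2 := by
      refine sq_le_sq' ?_ ?_
      · linarith
      · linarith
    rw [hDs] at h4
    have h2 : ‖t - r • ζ‖ ^ 2 ≤ ρ ^ 2 := by
      rw [hn]
      nlinarith
    exact (sq_le_sq₀ (norm_nonneg _) hρ.le).1 h2

lemma k1_pow {a R : ℝ} (ha : 0 ≤ a) (hR : 0 ≤ R) :
    ∫⁻ r in Ioc (0 : ℝ) R, ENNReal.ofReal (a * r ^ 3) = ENNReal.ofReal (a * R ^ 4 / 4) := by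
  have hint : IntegrableOn (fun r : ℝ => a * r ^ 3) (Ioc (0 : ℝ) R) := by
    have hc : Continuous (fun r : ℝ => a * r ^ 3) := by fun_prop
    exact (hc.integrableOn_Icc (a := 0) (b := R)).mono_set Ioc_subset_Icc_self
  rw [← ofReal_integral_eq_lintegral_ofReal hint]
  · congr 1
    rw [← intervalIntegral.integral_of_le hR, intervalIntegral.integral_const_mul, integral_pow]
    norm_num
    ring
  · refine (ae_restrict_iff' measurableSet_Ioc).2 (Filter.Eventually.of_forall fun r hr => ?_)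
    have h0 : 0 < r := hr.1
    positivity

theorem solid_center {N : E 3 → ℝ} (h : IsN N) {t : E 3} {ρ : ℝ} (ht : ‖t‖ < ρ) :
    ∫ z in {z : E 3 | ‖t - z‖ ≤ ρ}, N z = 3 * vol (nrm 3) / 4 *
      ∫ ζ, N ζ * (8 * inner ℝ t ζ ^ 4 + 8 * (ρ ^ 2 - ‖t‖ ^ 2) * inner ℝ t ζ ^ 2 +
        (ρ ^ 2 - ‖t‖ ^ 2) ^ 2) ∂(sg 3) := by
  have hρ : 0 < ρ := lt_of_le_of_lt (norm_nonneg t) ht
  have he0 : 0 < ρ ^ 2 - ‖t‖ ^ 2 := by nlinarith [norm_nonneg t]
  have hN := h.cont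
  obtain ⟨e, he⟩ : ∃ e : ℝ, e = ρ ^ 2 - ‖t‖ ^ 2 := ⟨_, rfl⟩
  obtain ⟨F, hF⟩ : ∃ F : E 3 → ℝ, F = fun ζ =>
    N ζ * (inner ℝ t ζ + √(inner ℝ t ζ ^ 2 + e)) ^ 4 := ⟨_, rfl⟩
  obtain ⟨G, hG⟩ : ∃ G : E 3 → ℝ, G = fun ζ =>
    N ζ * (-inner ℝ t ζ + √(inner ℝ t ζ ^ 2 + e)) ^ 4 := ⟨_, rfl⟩
  have hFc : Continuous F := by
    rw [hF]
    fun_prop
  have hGc : Continuous G := by
    rw [hG]
    fun_prop
  have hF0 : ∀ ζ, 0 ≤ F ζ := by
    intro ζ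
    rw [hF]
    exact mul_nonneg (h.nonneg ζ) (by positivity)
  have hbd : ∀ H : E 3 → ℝ, Continuous H → Integrable H (sg 3) := by
    intro H hH
    obtain ⟨C, hC⟩ := (isCompact_sphere (0 : E 3) 1).exists_bound_of_continuousOn hH.continuousOn
    refine integrable_cm (isN_nrm 3) (by norm_num) hH.measurable (C := C) ?_
    intro x hx
    have h1 : ‖x‖ = 1 := hx
    exact hC x (by rw [mem_sphere_iff_norm, sub_zero]; exact h1)
  have hFi := hbd F hFc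
  have hGi := hbd G hGc
  -- the function in polar coordinates
  obtain ⟨B, hB⟩ : ∃ B : Set (E 3), B = {z : E 3 | ‖t - z‖ ≤ ρ} := ⟨_, rfl⟩
  have hBm : MeasurableSet B := by
    rw [hB]
    refine (isClosed_le ?_ continuous_const).measurableSet
    fun_prop
  obtain ⟨g, hg⟩ : ∃ g : E 3 → ENNReal, g = B.indicator (fun z => ENNReal.ofReal (N z)) :=
    ⟨_, rfl⟩
  have hgm : Measurable g := by
    rw [hg]
    exact (hN.measurable.ennreal_ofReal).indicator hBm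
  have hin : ∀ ζ : E 3, ‖ζ‖ = 1 →
      ∫⁻ r in Ioi (0 : ℝ), ENNReal.ofReal (r ^ (3 - 1)) * g (r • ζ) ∂volume =
        ENNReal.ofReal (F ζ / 4) := by
    intro ζ hζ
    obtain ⟨R, hR⟩ : ∃ R : ℝ, R = inner ℝ t ζ + √(inner ℝ t ζ ^ 2 + e) := ⟨_, rfl⟩
    have hR0 : 0 ≤ R := by
      have h1 : -inner ℝ t ζ ≤ √(inner ℝ t ζ ^ 2 + e) := by
        refine Real.le_sqrt_of_sq_le ?_
        rw [he]
        nlinarith
      rw [hR]
      linarith
    have h1 : ∫⁻ r in Ioi (0 : ℝ), ENNReal.ofReal (r ^ (3 - 1)) * g (r • ζ) ∂volume =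
        ∫⁻ r in Ioi (0 : ℝ), (Iic R).indicator (fun r => ENNReal.ofReal (N ζ * r ^ 3)) r := by
      refine setLIntegral_congr_fun measurableSet_Ioi ?_
      intro r hr
      have hr0 : 0 < r := hr
      change ENNReal.ofReal (r ^ (3 - 1)) * g (r • ζ) =
        (Iic R).indicator (fun r => ENNReal.ofReal (N ζ * r ^ 3)) r
      have hiff := k1_iff (t := t) hζ hr0 ht
      rw [← he, ← hR] at hiff
      by_cases hrR : r ≤ R
      · have hm : r • ζ ∈ B := by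
          rw [hB]
          exact hiff.2 hrR
        rw [Set.indicator_of_mem (show r ∈ Iic R from hrR), hg, Set.indicator_of_mem hm,
          ← ENNReal.ofReal_mul (by positivity), h.smul_nonneg hr0.le]
        congr 1
        ring
      · have hm : r • ζ ∉ B := by
          rw [hB]
          exact fun h' => hrR (hiff.1 h')
        rw [Set.indicator_of_notMem (show r ∉ Iic R from hrR), hg, Set.indicator_of_notMem hm,
          mul_zero]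
    rw [h1, lintegral_indicator measurableSet_Iic, Measure.restrict_restrict measurableSet_Iic]
    have h2 : Iic R ∩ Ioi 0 = Ioc 0 R := by
      ext r
      constructor
      · rintro ⟨h3, h4⟩
        exact ⟨h4, h3⟩
      · rintro ⟨h3, h4⟩
        exact ⟨h4, h3⟩
    rw [h2, k1_pow (h.nonneg ζ) hR0, hF, hR]
  have hpol := polar (isN_nrm 3) (by norm_num) hgm
  have hinner : ∫⁻ x, ∫⁻ r in Ioi (0 : ℝ), ENNReal.ofReal (r ^ (3 - 1)) * g (r • x) ∂volume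
      ∂(cm (nrm 3)) = ∫⁻ x, ENNReal.ofReal (F x / 4) ∂(sg 3) := by
    refine lintegral_congr_ae ?_
    filter_upwards [ae_cm (isN_nrm 3) (by norm_num)] with x hx
    exact hin x hx
  rw [hinner] at hpol
  have hF4 : ∫⁻ x, ENNReal.ofReal (F x / 4) ∂(sg 3) = ENNReal.ofReal (∫ x, F x / 4 ∂(sg 3)) := by
    rw [ofReal_integral_eq_lintegral_ofReal (hFi.div_const 4)]
    exact Filter.Eventually.of_forall fun x => div_nonneg (hF0 x) (by norm_num)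
  have hv : 0 ≤ ((3 : ℕ) : ℝ) * vol (nrm 3) :=
    mul_nonneg (by norm_num) (isN_nrm 3).vol_pos.le
  have hL : ∫ z in {z : E 3 | ‖t - z‖ ≤ ρ}, N z = (∫⁻ x, g x).toReal := by
    rw [← hB, integral_eq_lintegral_of_nonneg_ae (Filter.Eventually.of_forall fun z => h.nonneg z)
      hN.aestronglyMeasurable, hg, lintegral_indicator hBm]
  have h3 : ∫ z in {z : E 3 | ‖t - z‖ ≤ ρ}, N z = 3 * vol (nrm 3) / 4 * ∫ x, F x ∂(sg 3) := by
    rw [hL, hpol, hF4, ← ENNReal.ofReal_mul hv, ENNReal.toReal_ofReal]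
    · rw [integral_div]
      push_cast
      ring
    · refine mul_nonneg hv (integral_nonneg fun x => div_nonneg (hF0 x) (by norm_num))
  -- symmetry
  have hsym : ∫ x, G x ∂(sg 3) = ∫ x, F x ∂(sg 3) := by
    have h4 : ∫ x, F x ∂((sg 3).map (fun x => -x)) = ∫ x, F (-x) ∂(sg 3) :=
      integral_map (by fun_prop) hFc.aestronglyMeasurable
    have h5 : (sg 3).map (fun x => -x) = sg 3 := neg_cm (isN_nrm 3)
    rw [h5] at h4
    rw [h4]
    refine integral_congr_ae (Filter.Eventually.of_forall fun x => ?_)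
    change G x = F (-x)
    rw [hG, hF]
    change N x * _ = N (-x) * _
    rw [h.neg, inner_neg_right, neg_sq]
  rw [h3, ← he]
  congr 1
  have h6 : ∫ x, F x ∂(sg 3) = ∫ x, (F x + G x) / 2 ∂(sg 3) := by
    rw [integral_div, integral_add hFi hGi, hsym]
    ring
  rw [h6]
  refine integral_congr_ae (Filter.Eventually.of_forall fun x => ?_)
  change (F x + G x) / 2 = N x * (8 * inner ℝ t x ^ 4 + 8 * e * inner ℝ t x ^ 2 + e ^ 2)
  rw [hF, hG]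
  change (N x * (inner ℝ t x + √(inner ℝ t x ^ 2 + e)) ^ 4 +
    N x * (-inner ℝ t x + √(inner ℝ t x ^ 2 + e)) ^ 4) / 2 = _
  obtain ⟨c, hc⟩ : ∃ c : ℝ, c = inner ℝ t x := ⟨_, rfl⟩
  rw [← hc]
  have hDs : √(c ^ 2 + e) ^ 2 = c ^ 2 + e := Real.sq_sqrt (by rw [he]; positivity)
  obtain ⟨D, hD⟩ : ∃ D : ℝ, D = √(c ^ 2 + e) := ⟨_, rfl⟩
  rw [← hD] at hDs ⊢
  have h7 : (N x * (c + D) ^ 4 + N x * (-c + D) ^ 4) / 2 =
      N x * ((D ^ 2) ^ 2 + 6 * D ^ 2 * c ^ 2 + c ^ 4) := by ring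
  rw [h7, hDs]
  ring

end Pool.Agent.LibSP52
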