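import Pool.Agent.LibSP52.P1
import Pool.Agent.LibSP52.P2

/-!
[SP K2] The same integral as an integral over spheres about `t`.  PAPER PROOF.  `z = t - w` is a measure preserving substitution; then
`polar` for `nrm 3` and `g w = ofReal (N (t - w)) 1[‖w‖ ≤ ρ]`, Tonelli, and `∫⁻` to `∫` (everything is bounded on bounded sets).
-/

set_option autoImplicit false

open MeasureTheory Set

namespace Pool.Agent.LibSP52

open Pool.Agent.LibSP74

/-- The mean of `N (t - s φ)` over the unit sphere. -/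
noncomputable def Ph (N : E 3 → ℝ) (t : E 3) (s : ℝ) : ℝ := ∫ φ, N (t - s • φ) ∂(sg 3)

lemma k2_bound {d : ℕ} {N : E d → ℝ} (h : IsN N) : ∃ C : ℝ, 0 ≤ C ∧ ∀ z, N z ≤ C * ‖z‖ := by
  obtain ⟨C, hC⟩ := (isCompact_closedBall (0 : E d) 1).exists_bound_of_continuousOn
    h.cont.continuousOn
  have hC0 : 0 ≤ C := (norm_nonneg _).trans (hC 0 (Metric.mem_closedBall_self zero_le_one))
  refine ⟨C, hC0, fun z => ?_⟩
  by_cases hz : z = 0
  · rw [hz, h.zero, norm_zero, mul_zero]
  have hn : 0 < ‖z‖ := norm_pos_iff.2 hz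
  have h1 : N (‖z‖⁻¹ • z) ≤ C := (le_abs_self _).trans (hC _ (by
    rw [Metric.mem_closedBall, dist_zero_right, norm_smul, norm_inv, norm_norm,
      inv_mul_cancel₀ hn.ne']))
  rw [h.smul_nonneg (by positivity), inv_mul_le_iff₀ hn] at h1
  linarith [mul_comm C ‖z‖]

lemma k2_ae : ∀ᵐ φ ∂(sg 3), ‖φ‖ = 1 := ae_cm (isN_nrm 3) (by norm_num)

lemma k2_prob : IsProbabilityMeasure (sg 3) := isProb_cm (isN_nrm 3)

theorem continuous_Ph {N : E 3 → ℝ} (h : IsN N) : Continuous fun p : E 3 × ℝ => Ph N p.1 p.2 := by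
  have := k2_prob
  obtain ⟨C, hC0, hC⟩ := k2_bound h
  rw [continuous_iff_continuousAt]
  intro p₀
  unfold Ph
  refine continuousAt_of_dominated (bound := fun _ => C * ((‖p₀.1‖ + 1) + (|p₀.2| + 1))) ?_ ?_ ?_ ?_
  · refine Filter.Eventually.of_forall fun p => ?_
    have hc : Continuous fun φ : E 3 => N (p.1 - p.2 • φ) :=
      h.cont.comp (continuous_const.sub (continuous_id.const_smul p.2))
    exact hc.aestronglyMeasurable
  · filter_upwards [Metric.ball_mem_nhds p₀ one_pos] with p hp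
    filter_upwards [k2_ae] with φ hφ
    rw [Real.norm_eq_abs, abs_of_nonneg (h.nonneg _)]
    refine (hC _).trans (mul_le_mul_of_nonneg_left ?_ hC0)
    have hp' : dist p p₀ < 1 := hp
    rw [Prod.dist_eq, max_lt_iff] at hp'
    have h1 : ‖p.1‖ ≤ ‖p₀.1‖ + 1 := by
      have := norm_le_norm_add_norm_sub' p.1 p₀.1
      rw [← dist_eq_norm] at this
      linarith [hp'.1]
    have h2 : |p.2| ≤ |p₀.2| + 1 := by
      have := norm_le_norm_add_norm_sub' p.2 p₀.2
      rw [← dist_eq_norm] at this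
      rw [Real.norm_eq_abs, Real.norm_eq_abs] at this
      linarith [hp'.2]
    refine (norm_sub_le _ _).trans ?_
    rw [norm_smul, hφ, mul_one, Real.norm_eq_abs]
    linarith
  · exact integrable_const _
  · refine Filter.Eventually.of_forall fun φ => ?_
    have : Continuous fun p : E 3 × ℝ => N (p.1 - p.2 • φ) :=
      h.cont.comp (continuous_fst.sub (continuous_snd.smul continuous_const))
    exact this.continuousAt

theorem solid_spheres {N : E 3 → ℝ} (h : IsN N) (t : E 3) {ρ : ℝ} (hρ : 0 ≤ ρ) :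
    ∫ z in {z : E 3 | ‖t - z‖ ≤ ρ}, N z =
      3 * vol (nrm 3) * ∫ s in (0 : ℝ)..ρ, s ^ 2 * Ph N t s := by
  have := k2_prob
  have hms : MeasurableSet {z : E 3 | ‖t - z‖ ≤ ρ} :=
    measurableSet_le (continuous_const.sub continuous_id).norm.measurable measurable_const
  have hmw : MeasurableSet {w : E 3 | ‖w‖ ≤ ρ} :=
    measurableSet_le continuous_norm.measurable measurable_const
  -- the substitution
  rw [← integral_indicator hms, ← integral_sub_left_eq_self _ volume t]
  set G : E 3 → ℝ := fun w => {w : E 3 | ‖w‖ ≤ ρ}.indicator (fun w => N (t - w)) w with hG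
  have hcongr : (fun w : E 3 => {z : E 3 | ‖t - z‖ ≤ ρ}.indicator (fun z => N z) (t - w)) = G := by
    funext w
    by_cases hw : ‖w‖ ≤ ρ
    · rw [hG]
      simp only
      rw [indicator_of_mem (show t - w ∈ {z : E 3 | ‖t - z‖ ≤ ρ} by
        show ‖t - (t - w)‖ ≤ ρ
        rwa [sub_sub_cancel]), indicator_of_mem (show w ∈ {w : E 3 | ‖w‖ ≤ ρ} from hw)]
    · rw [hG]
      simp only
      rw [indicator_of_notMem (show t - w ∉ {z : E 3 | ‖t - z‖ ≤ ρ} by
        intro hh
        apply hw
        have h2 : ‖t - (t - w)‖ ≤ ρ := hh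
        rwa [sub_sub_cancel] at h2), indicator_of_notMem (show w ∉ {w : E 3 | ‖w‖ ≤ ρ} from hw)]
  have hcong2 : ∫ w : E 3, {z : E 3 | ‖t - z‖ ≤ ρ}.indicator (fun z => N z) (t - w) = ∫ w, G w := by
    rw [hcongr]
  rw [hcong2]
  have hG0 : ∀ w, 0 ≤ G w := fun w => indicator_nonneg (fun w _ => h.nonneg _) w
  have hcN : Continuous fun w : E 3 => N (t - w) := h.cont.comp (continuous_const.sub continuous_id)
  have hGm : Measurable G := hcN.measurable.indicator hmw
  rw [integral_eq_lintegral_of_nonneg_ae (Filter.Eventually.of_forall hG0)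
    hGm.aestronglyMeasurable, polar (isN_nrm 3) (by norm_num) hGm.ennreal_ofReal]
  have hvol : 0 ≤ (3 : ℝ) * vol (nrm 3) := by
    have := (isN_nrm 3).vol_pos
    positivity
  -- the inner integral
  have hinner : ∫⁻ x, ∫⁻ r in Ioi (0 : ℝ), ENNReal.ofReal (r ^ (3 - 1)) * ENNReal.ofReal (G (r • x))
      ∂volume ∂(cm (nrm 3)) =
      ∫⁻ x, ∫⁻ r in Ioc (0 : ℝ) ρ, ENNReal.ofReal (r ^ 2 * N (t - r • x)) ∂volume ∂(sg 3) := by
    refine lintegral_congr_ae ?_
    have hae : ∀ᵐ x ∂(cm (nrm 3)), ‖x‖ = 1 := k2_ae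
    filter_upwards [hae] with x hx
    rw [← lintegral_indicator measurableSet_Ioi, ← lintegral_indicator measurableSet_Ioc]
    refine lintegral_congr fun r => ?_
    by_cases hr : 0 < r
    · rw [indicator_of_mem (show r ∈ Ioi (0 : ℝ) from hr)]
      have hnr : ‖r • x‖ = r := by
        rw [norm_smul, hx, mul_one, Real.norm_eq_abs, abs_of_pos hr]
      by_cases hrρ : r ≤ ρ
      · rw [indicator_of_mem (show r ∈ Ioc (0 : ℝ) ρ from ⟨hr, hrρ⟩)]
        have hGr : G (r • x) = N (t - r • x) := by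
          rw [hG]
          exact indicator_of_mem (show r • x ∈ {w : E 3 | ‖w‖ ≤ ρ} by
            show ‖r • x‖ ≤ ρ
            rw [hnr]
            exact hrρ) _
        rw [hGr, ← ENNReal.ofReal_mul (by positivity)]
      · rw [indicator_of_notMem (show r ∉ Ioc (0 : ℝ) ρ from fun hh => hrρ hh.2)]
        have hGr : G (r • x) = 0 := by
          rw [hG]
          exact indicator_of_notMem (show r • x ∉ {w : E 3 | ‖w‖ ≤ ρ} by
            intro hh
            have h2 : ‖r • x‖ ≤ ρ := hh
            rw [hnr] at h2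
            exact hrρ h2) _
        rw [hGr, ENNReal.ofReal_zero, mul_zero]
    · rw [indicator_of_notMem (show r ∉ Ioi (0 : ℝ) from hr),
        indicator_of_notMem (show r ∉ Ioc (0 : ℝ) ρ from fun hh => hr hh.1)]
  have hPc : Continuous fun r : ℝ => r ^ 2 * Ph N t r :=
    (continuous_id.pow 2).mul ((continuous_Ph h).comp (continuous_const.prodMk continuous_id))
  have hPh0 : ∀ r : ℝ, 0 ≤ Ph N t r := fun r => integral_nonneg fun φ => h.nonneg _
  obtain ⟨C, hC0, hC⟩ := k2_bound h
  have hjoint : Continuous fun p : E 3 × ℝ => p.2 ^ 2 * N (t - p.2 • p.1) :=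
    (continuous_snd.pow 2).mul (h.cont.comp (continuous_const.sub (continuous_snd.smul continuous_fst)))
  have houter : ∫⁻ x, ∫⁻ r in Ioc (0 : ℝ) ρ, ENNReal.ofReal (r ^ 2 * N (t - r • x)) ∂volume ∂(sg 3) =
      ENNReal.ofReal (∫ s in (0 : ℝ)..ρ, s ^ 2 * Ph N t s) := by
    rw [lintegral_lintegral_swap (hjoint.measurable.ennreal_ofReal.aemeasurable),
      intervalIntegral.integral_of_le hρ,
      ofReal_integral_eq_lintegral_ofReal (hPc.integrableOn_Ioc)
        (Filter.Eventually.of_forall fun r => mul_nonneg (sq_nonneg r) (hPh0 r))]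
    refine lintegral_congr fun r => ?_
    have hc : Continuous fun φ : E 3 => N (t - r • φ) :=
      h.cont.comp (continuous_const.sub (continuous_id.const_smul r))
    have hint : Integrable (fun φ : E 3 => r ^ 2 * N (t - r • φ)) (sg 3) := by
      refine (integrable_cm (isN_nrm 3) (by norm_num) hc.measurable (C := C * (‖t‖ + |r|)) ?_).const_mul _
      intro x hx
      have hx' : ‖x‖ = 1 := hx
      rw [abs_of_nonneg (h.nonneg _)]
      refine (hC _).trans (mul_le_mul_of_nonneg_left ?_ hC0)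
      refine (norm_sub_le _ _).trans ?_
      rw [norm_smul, hx', mul_one, Real.norm_eq_abs]
    rw [← ofReal_integral_eq_lintegral_ofReal hint
      (Filter.Eventually.of_forall fun φ => mul_nonneg (sq_nonneg r) (h.nonneg _)),
      integral_const_mul]
    rfl
  rw [hinner, houter, ENNReal.toReal_mul, ENNReal.toReal_ofReal (by simpa using hvol),
    ENNReal.toReal_ofReal (intervalIntegral.integral_nonneg hρ fun s _ =>
      mul_nonneg (sq_nonneg s) (hPh0 s))]
  norm_num

end Pool.Agent.LibSP52
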