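import Pool.Agent.LibSP52.K1
import Pool.Agent.LibSP52.K2

/-!
[SP K3] THE KERNEL IDENTITY in dimension 3.  PAPER PROOF.  First `‖t‖ < 1`.  For `ρ` in a neighbourhood of `1` the right sides of
`solid_center` and `solid_spheres` agree; divide by `3 vol (nrm 3) > 0` and differentiate at `ρ = 1`
(`intervalIntegral.integral_hasDerivAt_right`, `s² Ph` is continuous; the other side is a polynomial in `ρ`:
`(1/4) (8 I₄ + 8 (ρ² - τ²) I₂ + (ρ² - τ²)² I₀)`, `I_j = ∫ N ζ ⟪t, ζ⟫^j ∂sg`, with derivative at `1`: `4 I₂ + (1 - τ²) I₀`).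
Uniqueness of derivatives gives the identity.  For `‖t‖ = 1`: continuity in `t` (`continuous_Ph`, and the right side is a continuous
function of `t` along `c t`, `c → 1⁻`: it is `(1 - c²) I₀ + 4 c² I₂`).
-/

set_option autoImplicit false

open MeasureTheory Set

namespace Pool.Agent.LibSP52

open Pool.Agent.LibSP74

/-- The moments. -/
lemma k3_int {N : E 3 → ℝ} (h : IsN N) (t : E 3) (k : ℕ) :
    Integrable (fun ζ : E 3 => N ζ * inner ℝ t ζ ^ k) (sg 3) := by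
  obtain ⟨C, hC0, hC⟩ := k2_bound h
  have hc : Continuous fun ζ : E 3 => N ζ * inner ℝ t ζ ^ k :=
    h.cont.mul ((continuous_const.inner continuous_id).pow k)
  refine integrable_cm (isN_nrm 3) (by norm_num) hc.measurable (C := C * ‖t‖ ^ k) ?_
  intro x hx
  have hx' : ‖x‖ = 1 := hx
  have h1 : N x ≤ C := by
    have := hC x
    rwa [hx', mul_one] at this
  have h2 : |(inner ℝ t x : ℝ)| ≤ ‖t‖ := by
    have := abs_real_inner_le_norm t x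
    rwa [hx', mul_one] at this
  rw [abs_mul, abs_of_nonneg (h.nonneg _), abs_pow]
  exact mul_le_mul h1 (pow_le_pow_left₀ (abs_nonneg _) h2 k) (by positivity) hC0

lemma k3_split {N : E 3 → ℝ} (h : IsN N) (t : E 3) (a b c : ℝ) :
    ∫ ζ, N ζ * (a * inner ℝ t ζ ^ 4 + b * inner ℝ t ζ ^ 2 + c) ∂(sg 3) =
      a * ∫ ζ, N ζ * inner ℝ t ζ ^ 4 ∂(sg 3) + b * ∫ ζ, N ζ * inner ℝ t ζ ^ 2 ∂(sg 3) +
        c * ∫ ζ, N ζ * inner ℝ t ζ ^ 0 ∂(sg 3) := by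
  have h4 := (k3_int h t 4).const_mul a
  have h2 := (k3_int h t 2).const_mul b
  have h0 := (k3_int h t 0).const_mul c
  have e : ∀ ζ : E 3, N ζ * (a * inner ℝ t ζ ^ 4 + b * inner ℝ t ζ ^ 2 + c) =
      a * (N ζ * inner ℝ t ζ ^ 4) + b * (N ζ * inner ℝ t ζ ^ 2) + c * (N ζ * inner ℝ t ζ ^ 0) := by
    intro ζ
    ring
  simp only [e]
  have h42 : Integrable (fun ζ : E 3 => a * (N ζ * inner ℝ t ζ ^ 4) + b * (N ζ * inner ℝ t ζ ^ 2))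
      (sg 3) := h4.add h2
  rw [integral_add h42 h0, integral_add h4 h2, integral_const_mul, integral_const_mul,
    integral_const_mul]

lemma k3_lt {N : E 3 → ℝ} (h : IsN N) {t : E 3} (ht : ‖t‖ < 1) :
    Ph N t 1 = 4 * ∫ ζ, N ζ * inner ℝ t ζ ^ 2 ∂(sg 3) +
      (1 - ‖t‖ ^ 2) * ∫ ζ, N ζ * inner ℝ t ζ ^ 0 ∂(sg 3) := by
  set I₄ := ∫ ζ, N ζ * inner ℝ t ζ ^ 4 ∂(sg 3) with hI4
  set I₂ := ∫ ζ, N ζ * inner ℝ t ζ ^ 2 ∂(sg 3) with hI2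
  set I₀ := ∫ ζ, N ζ * inner ℝ t ζ ^ 0 ∂(sg 3) with hI0
  have hvol : 0 < vol (nrm 3) := (isN_nrm 3).vol_pos
  have hPc : Continuous fun r : ℝ => r ^ 2 * Ph N t r :=
    (continuous_id.pow 2).mul ((continuous_Ph h).comp (continuous_const.prodMk continuous_id))
  have heq : ∀ ρ : ℝ, ‖t‖ < ρ → ∫ s in (0 : ℝ)..ρ, s ^ 2 * Ph N t s =
      1 / 4 * (8 * I₄ + 8 * (ρ ^ 2 - ‖t‖ ^ 2) * I₂ + (ρ ^ 2 - ‖t‖ ^ 2) ^ 2 * I₀) := by
    intro ρ hρ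
    have hρ0 : 0 ≤ ρ := (norm_nonneg t).trans hρ.le
    have h1 := solid_center h hρ
    rw [solid_spheres h t hρ0, k3_split h t 8 (8 * (ρ ^ 2 - ‖t‖ ^ 2)) ((ρ ^ 2 - ‖t‖ ^ 2) ^ 2)] at h1
    have h2 : 3 * vol (nrm 3) ≠ 0 := by positivity
    apply mul_left_cancel₀ h2
    rw [h1]
    ring
  have hd1 : HasDerivAt (fun ρ : ℝ => ∫ s in (0 : ℝ)..ρ, s ^ 2 * Ph N t s) (1 ^ 2 * Ph N t 1) 1 :=
    intervalIntegral.integral_hasDerivAt_right (hPc.intervalIntegrable _ _)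
      (hPc.stronglyMeasurableAtFilter _ _) hPc.continuousAt
  have hd2 : HasDerivAt (fun ρ : ℝ => 1 / 4 * (8 * I₄ + 8 * (ρ ^ 2 - ‖t‖ ^ 2) * I₂ +
      (ρ ^ 2 - ‖t‖ ^ 2) ^ 2 * I₀)) (4 * I₂ + (1 - ‖t‖ ^ 2) * I₀) 1 := by
    have e1 : HasDerivAt (fun ρ : ℝ => ρ ^ 2 - ‖t‖ ^ 2) (2 * 1) 1 := by
      have := (hasDerivAt_pow 2 (1 : ℝ)).sub_const (‖t‖ ^ 2)
      simpa using this
    have e2 : HasDerivAt (fun ρ : ℝ => (ρ ^ 2 - ‖t‖ ^ 2) ^ 2) (2 * (1 ^ 2 - ‖t‖ ^ 2) * (2 * 1)) 1 := by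
      have := e1.fun_pow 2
      simpa using this
    have e3 := (((e1.const_mul 8).mul_const I₂).const_add (8 * I₄)).add (e2.mul_const I₀)
    have e4 := e3.const_mul (1 / 4 : ℝ)
    refine e4.congr_deriv ?_
    ring
  have hev : (fun ρ : ℝ => ∫ s in (0 : ℝ)..ρ, s ^ 2 * Ph N t s) =ᶠ[nhds 1]
      (fun ρ : ℝ => 1 / 4 * (8 * I₄ + 8 * (ρ ^ 2 - ‖t‖ ^ 2) * I₂ + (ρ ^ 2 - ‖t‖ ^ 2) ^ 2 * I₀)) := by
    filter_upwards [lt_mem_nhds ht] with ρ hρ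
    exact heq ρ hρ
  have := (hd1.congr_of_eventuallyEq hev.symm).unique hd2
  linarith

theorem kernel3 {N : E 3 → ℝ} (h : IsN N) {t : E 3} (ht : ‖t‖ ≤ 1) :
    ∫ φ, N (t - φ) ∂(sg 3) = ∫ ζ, N ζ * (1 - ‖t‖ ^ 2 + 4 * inner ℝ t ζ ^ 2) ∂(sg 3) := by
  have hL : ∫ φ, N (t - φ) ∂(sg 3) = Ph N t 1 := by
    unfold Ph
    simp only [one_smul]
  have hR : ∫ ζ, N ζ * (1 - ‖t‖ ^ 2 + 4 * inner ℝ t ζ ^ 2) ∂(sg 3) =
      4 * ∫ ζ, N ζ * inner ℝ t ζ ^ 2 ∂(sg 3) +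
      (1 - ‖t‖ ^ 2) * ∫ ζ, N ζ * inner ℝ t ζ ^ 0 ∂(sg 3) := by
    have := k3_split h t 0 4 (1 - ‖t‖ ^ 2)
    rw [zero_mul, zero_add] at this
    rw [← this]
    refine integral_congr_ae (Filter.Eventually.of_forall fun ζ => ?_)
    simp only
    ring
  rw [hL, hR]
  rcases ht.lt_or_eq with ht | ht
  · exact k3_lt h ht
  -- the boundary case
  have hcl : Filter.Tendsto (fun c : ℝ => Ph N (c • t) 1) (nhdsWithin 1 (Iio 1)) (nhds (Ph N t 1)) := by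
    have hc : Continuous fun c : ℝ => Ph N (c • t) 1 :=
      (continuous_Ph h).comp ((continuous_id.smul continuous_const).prodMk continuous_const)
    have := (hc.tendsto 1).mono_left (nhdsWithin_le_nhds (s := Iio 1))
    simpa using this
  have hcr : Filter.Tendsto (fun c : ℝ => 4 * (c ^ 2 * ∫ ζ, N ζ * inner ℝ t ζ ^ 2 ∂(sg 3)) +
      (1 - c ^ 2) * ∫ ζ, N ζ * inner ℝ t ζ ^ 0 ∂(sg 3)) (nhdsWithin 1 (Iio 1))
      (nhds (4 * ∫ ζ, N ζ * inner ℝ t ζ ^ 2 ∂(sg 3) +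
        (1 - ‖t‖ ^ 2) * ∫ ζ, N ζ * inner ℝ t ζ ^ 0 ∂(sg 3))) := by
    have hc : Continuous fun c : ℝ => 4 * (c ^ 2 * ∫ ζ, N ζ * inner ℝ t ζ ^ 2 ∂(sg 3)) +
      (1 - c ^ 2) * ∫ ζ, N ζ * inner ℝ t ζ ^ 0 ∂(sg 3) := by fun_prop
    have := (hc.tendsto 1).mono_left (nhdsWithin_le_nhds (s := Iio 1))
    rw [ht]
    simpa using this
  refine tendsto_nhds_unique_of_eventuallyEq hcl hcr ?_
  have h0 : Ioo (0 : ℝ) 1 ∈ nhdsWithin (1 : ℝ) (Iio 1) := Ioo_mem_nhdsLT zero_lt_one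
  filter_upwards [h0] with c hc
  have hct : ‖c • t‖ = c := by
    rw [norm_smul, ht, mul_one, Real.norm_eq_abs, abs_of_pos hc.1]
  have h1 := k3_lt h (t := c • t) (by rw [hct]; exact hc.2)
  rw [h1, hct]
  have h2 : ∫ ζ, N ζ * inner ℝ (c • t) ζ ^ 2 ∂(sg 3) = c ^ 2 * ∫ ζ, N ζ * inner ℝ t ζ ^ 2 ∂(sg 3) := by
    rw [← integral_const_mul]
    refine integral_congr_ae (Filter.Eventually.of_forall fun ζ => ?_)
    simp only
    rw [real_inner_smul_left]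
    ring
  rw [h2]
  simp only [pow_zero, mul_one]

end Pool.Agent.LibSP52
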