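import Pool.Agent.LibSP52.K3

/-!
[SP M] THE MAIN INEQUALITY in dimension 3.  PAPER PROOF.  `a := ∫ N ∂sg 3`.  In good position `kernel3` gives
`F(t) := ∫ N (t - φ) ∂sg = a (1 + ‖t‖² / 3)` for `‖t‖ ≤ 1`.
Let `L ≥ 1` with `‖x‖ ≤ L` for `N x ≤ 1`, `0 < s ≤ 1/L`.  For all `x, y, θ, φ` with `z = θ - φ`, `A = x + L θ`, `B = y + L φ`
(`x - y = (A - B) - L z`), by the triangle inequality only
  `N (z - s A) + N (z + s B) ≥ N (2 z - s (A - B)) = N ((2 - s L) z - s (x - y)) ≥ (2 - s L) N z - s N (x - y)`,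
that is  `s N (x - y) ≥ (2 - s L) N (θ - φ) - N (((1 - s L) θ - s x) - φ) - N (θ - ((1 - s L) φ - s y))`.
Integrate over `π ⊗ π` (`((x,θ),(y,φ))`): the marginals give `sprawl N` (`sprawl_cm`), `∫ F(θ) = 4a/3`, and twice
`∫ F ((1 - s L) θ - s x) dπ` (`‖(1 - s L) θ - s x‖ ≤ 1` for `‖θ‖ = 1`, `N x = 1`; `N` is even), so
  `s * sprawl N ≥ (2 - s L) 4a/3 - 2 a ∫ (1 + ‖(1 - s L) θ - s x‖² / 3) dπ`,
`‖(1 - s L) θ - s x‖² = (1 - s L)² - 2 s (1 - s L) ⟪x, θ⟫ + s² ‖x‖²` a.e.  Divide by `s` and let `s → 0`: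
`sprawl N ≥ (4/3) a ∫ ⟪x, θ⟫ dπ` (the terms with `L` cancel).
-/

set_option autoImplicit false

open MeasureTheory Set

namespace Pool.Agent.LibSP52

open Pool.Agent.LibSP74

/-- The potential in the ball, in good position. -/
lemma m_F {N : E 3 → ℝ} (h : IsN N)
    (hg : ∀ u : E 3, ∫ ζ, N ζ * inner ℝ u ζ ^ 2 ∂(sg 3) = (∫ ζ, N ζ ∂(sg 3)) / 3 * ‖u‖ ^ 2)
    {t : E 3} (ht : ‖t‖ ≤ 1) :
    ∫ φ, N (t - φ) ∂(sg 3) = (∫ ζ, N ζ ∂(sg 3)) * (1 + ‖t‖ ^ 2 / 3) := by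
  rw [kernel3 h ht]
  have hN := isN_nrm 3
  obtain ⟨C, hC⟩ : ∃ C, ∀ x ∈ {x : E 3 | nrm 3 x ≤ 1}, |N x| ≤ C := by
    obtain ⟨C, hC⟩ := (hN.isCompact_ball 1).exists_bound_of_continuousOn h.cont.continuousOn
    exact ⟨C, hC⟩
  have i1 : Integrable (fun ζ => N ζ) (sg 3) :=
    integrable_cm hN (by norm_num) h.cont.measurable (fun x hx => hC x hx.le)
  have i2 : Integrable (fun ζ => N ζ * inner ℝ t ζ ^ 2) (sg 3) := by
    refine integrable_cm hN (by norm_num) (by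
      have := h.cont
      exact (this.mul ((continuous_const.inner continuous_id).pow 2)).measurable)
      (C := C * 1) (fun x hx => ?_)
    rw [abs_mul]
    have h1 := hC x hx.le
    have h2 : |inner ℝ t x ^ 2| ≤ 1 := by
      have h3 : |inner ℝ t x| ≤ 1 := by
        refine (abs_real_inner_le_norm t x).trans ?_
        have : ‖x‖ = 1 := hx
        rw [this, mul_one]
        exact ht
      rw [abs_pow]
      exact pow_le_one₀ (abs_nonneg _) h3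
    exact mul_le_mul h1 h2 (abs_nonneg _) ((abs_nonneg _).trans h1)
  have e : (fun ζ => N ζ * (1 - ‖t‖ ^ 2 + 4 * inner ℝ t ζ ^ 2)) =
      fun ζ => (1 - ‖t‖ ^ 2) * N ζ + 4 * (N ζ * inner ℝ t ζ ^ 2) := by
    funext ζ
    ring
  rw [e, integral_add (i1.const_mul _) (i2.const_mul _), integral_const_mul, integral_const_mul,
    hg t]
  ring

/-- The triangle inequality. -/
lemma m_tri {N : E 3 → ℝ} (h : IsN N) {s L : ℝ} (hs : 0 ≤ s) (hL : s * L ≤ 2) (x y θ φ : E 3) :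
    (2 - s * L) * N (θ - φ) - N ((1 - s * L) • θ - s • x - φ) -
      N (θ - ((1 - s * L) • φ - s • y)) ≤ s * N (x - y) := by
  have h1 := h.add_le ((1 - s * L) • θ - s • x - φ) (θ - ((1 - s * L) • φ - s • y))
  have h2 := h.add_le ((1 - s * L) • θ - s • x - φ + (θ - ((1 - s * L) • φ - s • y))) (s • (x - y))
  have e : (1 - s * L) • θ - s • x - φ + (θ - ((1 - s * L) • φ - s • y)) + s • (x - y) =
      (2 - s * L) • (θ - φ) := by
    module
  rw [e, h.smul_nonneg (by linarith), h.smul_nonneg hs] at h2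
  linarith

lemma m_ae {N : E 3 → ℝ} (h : IsN N) {π : Measure (E 3 × E 3)} (hπ : IsCpl N π) :
    ∀ᵐ p ∂π, N p.1 = 1 ∧ ‖p.2‖ = 1 := by
  have h1 := ae_cm h (by norm_num : (3 : ℕ) ≠ 0)
  have h2 := ae_cm (isN_nrm 3) (by norm_num : (3 : ℕ) ≠ 0)
  rw [← hπ.fst] at h1
  have h2' : ∀ᵐ x ∂(sg 3), nrm 3 x = 1 := h2
  rw [← hπ.snd] at h2'
  have h3 := ae_of_ae_map measurable_fst.aemeasurable h1
  have h4 := ae_of_ae_map measurable_snd.aemeasurable h2'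
  filter_upwards [h3, h4] with p hp hq
  exact ⟨hp, hq⟩

lemma m_compact {N : E 3 → ℝ} (h : IsN N) :
    IsCompact {p : E 3 × E 3 | N p.1 ≤ 1 ∧ ‖p.2‖ ≤ 1} := by
  have h1 := (h.isCompact_ball 1).prod ((isN_nrm 3).isCompact_ball 1)
  exact h1

lemma m_int {N : E 3 → ℝ} (h : IsN N) {π : Measure (E 3 × E 3)} (hπ : IsCpl N π)
    {f : E 3 × E 3 → ℝ} (hf : Continuous f) : Integrable f π := by
  have := hπ.prob
  obtain ⟨C, hC⟩ := (m_compact h).exists_bound_of_continuousOn hf.continuousOn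
  refine Integrable.of_bound hf.aestronglyMeasurable C ?_
  filter_upwards [m_ae h hπ] with p hp
  exact hC p ⟨hp.1.le, hp.2.le⟩

lemma m_int2 {N : E 3 → ℝ} (h : IsN N) {π : Measure (E 3 × E 3)} (hπ : IsCpl N π)
    {f : (E 3 × E 3) × (E 3 × E 3) → ℝ} (hf : Continuous f) : Integrable f (π.prod π) := by
  have := hπ.prob
  obtain ⟨C, hC⟩ := ((m_compact h).prod (m_compact h)).exists_bound_of_continuousOn hf.continuousOn
  refine Integrable.of_bound hf.aestronglyMeasurable C ?_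
  have h1 : ∀ᵐ q ∂(π.prod π), q.1 ∈ {p : E 3 × E 3 | N p.1 ≤ 1 ∧ ‖p.2‖ ≤ 1} := by
    have h2 : ∀ᵐ p ∂π, p ∈ {p : E 3 × E 3 | N p.1 ≤ 1 ∧ ‖p.2‖ ≤ 1} := by
      filter_upwards [m_ae h hπ] with p hp
      exact ⟨hp.1.le, hp.2.le⟩
    exact Measure.quasiMeasurePreserving_fst.ae h2
  have h3 : ∀ᵐ q ∂(π.prod π), q.2 ∈ {p : E 3 × E 3 | N p.1 ≤ 1 ∧ ‖p.2‖ ≤ 1} := by
    have h2 : ∀ᵐ p ∂π, p ∈ {p : E 3 × E 3 | N p.1 ≤ 1 ∧ ‖p.2‖ ≤ 1} := by
      filter_upwards [m_ae h hπ] with p hp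
      exact ⟨hp.1.le, hp.2.le⟩
    exact Measure.quasiMeasurePreserving_snd.ae h2
  filter_upwards [h1, h3] with q hq1 hq2
  exact hC q ⟨hq1, hq2⟩

/-- Integration over the second marginal. -/
lemma m_snd {N : E 3 → ℝ} {π : Measure (E 3 × E 3)} (hπ : IsCpl N π) {f : E 3 → ℝ}
    (hf : Continuous f) : ∫ p, f p.2 ∂π = ∫ φ, f φ ∂(sg 3) := by
  rw [← hπ.snd, integral_map measurable_snd.aemeasurable hf.aestronglyMeasurable]

lemma m_fst {N : E 3 → ℝ} {π : Measure (E 3 × E 3)} (hπ : IsCpl N π) {f : E 3 → ℝ}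
    (hf : StronglyMeasurable f) : ∫ p, f p.1 ∂π = ∫ φ, f φ ∂(cm N) := by
  rw [← hπ.fst, integral_map measurable_fst.aemeasurable hf.aestronglyMeasurable]

lemma m_step {N : E 3 → ℝ} (h : IsN N)
    (hg : ∀ u : E 3, ∫ ζ, N ζ * inner ℝ u ζ ^ 2 ∂(sg 3) = (∫ ζ, N ζ ∂(sg 3)) / 3 * ‖u‖ ^ 2)
    {π : Measure (E 3 × E 3)} (hπ : IsCpl N π) {L s : ℝ} (hL : 1 ≤ L)
    (hLN : ∀ x, N x ≤ 1 → ‖x‖ ≤ L) (hs : 0 < s) (hsL : s * L ≤ 1) :
    (2 - s * L) * (4 / 3 * ∫ ζ, N ζ ∂(sg 3)) - 2 * ((∫ ζ, N ζ ∂(sg 3)) *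
      (1 + ((1 - s * L) ^ 2 - 2 * s * (1 - s * L) * (∫ p, inner ℝ p.1 p.2 ∂π) +
        s ^ 2 * ∫ p, ‖p.1‖ ^ 2 ∂π) / 3)) ≤ s * sprawl N := by
  have := hπ.prob
  have hN := h.cont
  set a := ∫ ζ, N ζ ∂(sg 3) with ha
  -- the four integrals
  have I1 : ∫ q, N (q.1.2 - q.2.2) ∂(π.prod π) = 4 / 3 * a := by
    rw [integral_prod _ (m_int2 h hπ (f := fun q => N (q.1.2 - q.2.2)) (by fun_prop))]
    have e1 : ∀ᵐ p ∂π, ∫ q : E 3 × E 3, N (p.2 - q.2) ∂π = 4 / 3 * a := by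
      filter_upwards [m_ae h hπ] with p hp
      rw [m_snd hπ (f := fun φ => N (p.2 - φ)) (by fun_prop), m_F h hg hp.2.le, hp.2]
      ring
    rw [integral_congr_ae e1]
    simp
  have hval : ∀ᵐ p ∂π, ∫ φ, N ((1 - s * L) • p.2 - s • p.1 - φ) ∂(sg 3) =
      a * (1 + ((1 - s * L) ^ 2 - 2 * s * (1 - s * L) * inner ℝ p.1 p.2 + s ^ 2 * ‖p.1‖ ^ 2) / 3) := by
    filter_upwards [m_ae h hπ] with p hp
    have hn : ‖(1 - s * L) • p.2 - s • p.1‖ ≤ 1 := by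
      refine (norm_sub_le _ _).trans ?_
      rw [norm_smul, norm_smul, hp.2, Real.norm_eq_abs, Real.norm_eq_abs, abs_of_nonneg (by linarith),
        abs_of_pos hs]
      have := hLN p.1 hp.1.le
      nlinarith
    rw [m_F h hg hn]
    congr 3
    rw [@norm_sub_sq_real, norm_smul, norm_smul, hp.2, inner_smul_left, inner_smul_right,
      Real.norm_eq_abs, Real.norm_eq_abs, real_inner_comm, mul_one, mul_pow, sq_abs, sq_abs]
    simp only [conj_trivial]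
    ring
  have hint : ∫ p : E 3 × E 3, a * (1 + ((1 - s * L) ^ 2 - 2 * s * (1 - s * L) * inner ℝ p.1 p.2 +
      s ^ 2 * ‖p.1‖ ^ 2) / 3) ∂π = a *
      (1 + ((1 - s * L) ^ 2 - 2 * s * (1 - s * L) * (∫ p, inner ℝ p.1 p.2 ∂π) +
        s ^ 2 * ∫ p, ‖p.1‖ ^ 2 ∂π) / 3) := by
    have j1 : Integrable (fun p : E 3 × E 3 => inner ℝ p.1 p.2) π := m_int h hπ (by fun_prop)
    have j2 : Integrable (fun p : E 3 × E 3 => ‖p.1‖ ^ 2) π := m_int h hπ (by fun_prop)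
    have e : (fun p : E 3 × E 3 => a * (1 + ((1 - s * L) ^ 2 - 2 * s * (1 - s * L) * inner ℝ p.1 p.2 +
        s ^ 2 * ‖p.1‖ ^ 2) / 3)) = fun p => a * (1 + (1 - s * L) ^ 2 / 3) +
        (-(a * (2 * s * (1 - s * L) / 3)) * inner ℝ p.1 p.2 + a * (s ^ 2 / 3) * ‖p.1‖ ^ 2) := by
      funext p
      ring
    have j3 : Integrable (fun p : E 3 × E 3 => -(a * (2 * s * (1 - s * L) / 3)) * inner ℝ p.1 p.2 +
        a * (s ^ 2 / 3) * ‖p.1‖ ^ 2) π := (j1.const_mul _).add (j2.const_mul _)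
    rw [e, integral_add (integrable_const _) j3,
      integral_add (j1.const_mul _) (j2.const_mul _), integral_const, integral_const_mul,
      integral_const_mul]
    simp only [probReal_univ, one_smul]
    ring
  have I2 : ∫ q, N ((1 - s * L) • q.1.2 - s • q.1.1 - q.2.2) ∂(π.prod π) = a *
      (1 + ((1 - s * L) ^ 2 - 2 * s * (1 - s * L) * (∫ p, inner ℝ p.1 p.2 ∂π) +
        s ^ 2 * ∫ p, ‖p.1‖ ^ 2 ∂π) / 3) := by
    rw [integral_prod _ (m_int2 h hπ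
      (f := fun q => N ((1 - s * L) • q.1.2 - s • q.1.1 - q.2.2)) (by fun_prop)), ← hint]
    refine integral_congr_ae ?_
    filter_upwards [hval] with p hp
    rw [← hp]
    exact m_snd hπ (f := fun φ => N ((1 - s * L) • p.2 - s • p.1 - φ)) (by fun_prop)
  have I3 : ∫ q, N (q.1.2 - ((1 - s * L) • q.2.2 - s • q.2.1)) ∂(π.prod π) = a *
      (1 + ((1 - s * L) ^ 2 - 2 * s * (1 - s * L) * (∫ p, inner ℝ p.1 p.2 ∂π) +
        s ^ 2 * ∫ p, ‖p.1‖ ^ 2 ∂π) / 3) := by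
    rw [integral_prod_symm _ (m_int2 h hπ
      (f := fun q => N (q.1.2 - ((1 - s * L) • q.2.2 - s • q.2.1))) (by fun_prop)), ← hint]
    refine integral_congr_ae ?_
    filter_upwards [hval] with p hp
    rw [← hp]
    have e2 : ∀ q : E 3 × E 3, N (q.2 - ((1 - s * L) • p.2 - s • p.1)) =
        N ((1 - s * L) • p.2 - s • p.1 - q.2) := fun q => h.sub_comm _ _
    simp only [e2]
    exact m_snd hπ (f := fun φ => N ((1 - s * L) • p.2 - s • p.1 - φ)) (by fun_prop)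
  have I4 : ∫ q, N (q.1.1 - q.2.1) ∂(π.prod π) = sprawl N := by
    rw [integral_prod _ (m_int2 h hπ (f := fun q => N (q.1.1 - q.2.1)) (by fun_prop)), sprawl_cm h]
    have e1 : ∀ p : E 3 × E 3, ∫ q : E 3 × E 3, N (p.1 - q.1) ∂π = ∫ y, N (p.1 - y) ∂(cm N) :=
      fun p => m_fst hπ (f := fun y => N (p.1 - y))
        (hN.comp (continuous_const.sub continuous_id)).stronglyMeasurable
    simp only [e1]
    have hc : StronglyMeasurable fun x => ∫ y, N (x - y) ∂(cm N) := by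
      have h1 : StronglyMeasurable fun p : E 3 × E 3 => N (p.1 - p.2) :=
        (hN.comp (continuous_fst.sub continuous_snd)).stronglyMeasurable
      have := isProb_cm h
      exact h1.integral_prod_right
    exact m_fst hπ (f := fun x => ∫ y, N (x - y) ∂(cm N)) hc
  have key : ∫ q, ((2 - s * L) * N (q.1.2 - q.2.2) - N ((1 - s * L) • q.1.2 - s • q.1.1 - q.2.2) -
      N (q.1.2 - ((1 - s * L) • q.2.2 - s • q.2.1))) ∂(π.prod π) ≤
      ∫ q, s * N (q.1.1 - q.2.1) ∂(π.prod π) := by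
    refine integral_mono (m_int2 h hπ (by fun_prop)) (m_int2 h hπ (by fun_prop)) fun q => ?_
    exact m_tri h hs.le (by linarith) q.1.1 q.2.1 q.1.2 q.2.2
  rw [integral_const_mul, I4, integral_sub (m_int2 h hπ (by fun_prop)) (m_int2 h hπ (by fun_prop)),
    integral_sub (m_int2 h hπ (by fun_prop)) (m_int2 h hπ (by fun_prop)), integral_const_mul,
    I1, I2, I3] at key
  linarith

theorem main_ineq {N : E 3 → ℝ} (h : IsN N)
    (hg : ∀ u : E 3, ∫ ζ, N ζ * inner ℝ u ζ ^ 2 ∂(sg 3) = (∫ ζ, N ζ ∂(sg 3)) / 3 * ‖u‖ ^ 2)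
    {π : Measure (E 3 × E 3)} (hπ : IsCpl N π) :
    4 / 3 * (∫ ζ, N ζ ∂(sg 3)) * ∫ p, inner ℝ p.1 p.2 ∂π ≤ sprawl N := by
  have := hπ.prob
  obtain ⟨L₀, hL₀⟩ : ∃ L, ∀ x ∈ {x : E 3 | N x ≤ 1}, ‖x‖ ≤ L := by
    obtain ⟨C, hC⟩ := (h.isCompact_ball 1).exists_bound_of_continuousOn continuousOn_id
    exact ⟨C, hC⟩
  set L := max L₀ 1 with hL
  have hL1 : 1 ≤ L := le_max_right _ _
  have hLN : ∀ x, N x ≤ 1 → ‖x‖ ≤ L := fun x hx => (hL₀ x hx).trans (le_max_left _ _)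
  set a := ∫ ζ, N ζ ∂(sg 3) with ha
  set I := ∫ p, inner ℝ p.1 p.2 ∂π with hI
  set m := ∫ p, ‖p.1‖ ^ 2 ∂π with hm
  set C := 4 * a / 3 * L * I + 2 * a / 3 * (L ^ 2 + m) with hC
  have hstep : ∀ s : ℝ, 0 < s → s * L ≤ 1 → 4 / 3 * a * I - s * C ≤ sprawl N := by
    intro s hs hsL
    have h1 := m_step h hg hπ hL1 hLN hs hsL
    rw [← ha, ← hI, ← hm] at h1
    have h2 : s * (4 / 3 * a * I - s * C) ≤ s * sprawl N := by
      refine le_trans (le_of_eq ?_) h1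
      rw [hC]
      ring
    exact le_of_mul_le_mul_left h2 hs
  by_contra hcon
  push Not at hcon
  set δ := 4 / 3 * a * I - sprawl N with hδ
  have hδ0 : 0 < δ := by rw [hδ]; linarith
  have hL0 : 0 < L := by linarith
  have hC1 : 0 < |C| + 1 := by positivity
  set s := min (1 / L) (δ / (2 * (|C| + 1))) with hs
  have hs0 : 0 < s := by
    rw [hs]
    exact lt_min (by positivity) (by positivity)
  have h1 := hstep s hs0 (by
    have : s ≤ 1 / L := min_le_left _ _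
    calc s * L ≤ 1 / L * L := mul_le_mul_of_nonneg_right this hL0.le
      _ = 1 := by field_simp)
  have h2 : s * C ≤ δ / 2 := by
    have h3 : s ≤ δ / (2 * (|C| + 1)) := min_le_right _ _
    calc s * C ≤ s * (|C| + 1) := by
          apply mul_le_mul_of_nonneg_left _ hs0.le
          have := le_abs_self C
          linarith
      _ ≤ δ / (2 * (|C| + 1)) * (|C| + 1) := mul_le_mul_of_nonneg_right h3 hC1.le
      _ = δ / 2 := by field_simp
  linarith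

end Pool.Agent.LibSP52
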