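import Pool.Agent.LibSP52.Defs

/-!
[SP P1] Polar coordinates with respect to a norm.  PAPER PROOF (Tonelli and scaling only).  Write `K = {N ≤ 1}`, `v = volume K`.
By the definition of `cm` (`lintegral_smul_measure`, `lintegral_map`; the map `x ↦ (N x)⁻¹ • x` is measurable)
  `v * ∫⁻ x ∂cm N, ∫⁻ r in Ioi 0, r^(d-1) g(r x) = ∫⁻ z in K, ∫⁻ r in Ioi 0, r^(d-1) g((r / N z) z)`.
For `z ≠ 0` substitute `r = N z * s` (`lintegral_comp_mul_left_Ioi`-like or `Measure.addHaar` scaling on `ℝ`): inner integral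
`= N z ^ d * ∫⁻ s in Ioi 0, s^(d-1) g(s z)`.  Tonelli: `= ∫⁻ s in Ioi 0, s^(d-1) ∫⁻ z in K, N z ^ d g(s z)`.  Substitute `w = s z`
(`Measure.addHaar_smul` / `lintegral_comp_smul`-like: `∫⁻ z, F (s • z) = s^(-d) ∫⁻ F`):
`= ∫⁻ s in Ioi 0, s^(d-1) s^(-d) s^(-d) ∫⁻ w in {N w ≤ s}, N w ^ d g(w)`, Tonelli again:
`= ∫⁻ w, g(w) N w ^ d ∫⁻ s in Ici (N w), s^(-d-1) = ∫⁻ w, g(w) / d` (for `w ≠ 0`).
-/

set_option autoImplicit false

open MeasureTheory Set
open scoped ENNReal

namespace Pool.Agent.LibSP52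

open Pool.Agent.LibSP74

variable {d : ℕ} {N : E d → ℝ}

/-- Scaling on the half line. -/
lemma p1_real {n : ℝ} (hn : 0 < n) {F : ℝ → ℝ≥0∞} (hF : Measurable F) :
    ∫⁻ r in Ioi (0 : ℝ), F r = ENNReal.ofReal n * ∫⁻ s in Ioi (0 : ℝ), F (n * s) := by
  have h1 : ∫⁻ r, (Ioi (0 : ℝ)).indicator F r =
      ENNReal.ofReal n * ∫⁻ s, (Ioi (0 : ℝ)).indicator F (n * s) := by
    conv_lhs => rw [← Real.smul_map_volume_mul_left hn.ne']
    rw [lintegral_smul_measure, lintegral_map (hF.indicator measurableSet_Ioi)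
      (measurable_const_mul n), abs_of_pos hn, smul_eq_mul]
  rw [← lintegral_indicator measurableSet_Ioi, ← lintegral_indicator measurableSet_Ioi, h1]
  congr 2
  funext s
  by_cases hs : 0 < s
  · rw [indicator_of_mem (show s ∈ Ioi (0 : ℝ) from hs),
      indicator_of_mem (show n * s ∈ Ioi (0 : ℝ) from mul_pos hn hs)]
  · rw [indicator_of_notMem (show s ∉ Ioi (0 : ℝ) from hs),
      indicator_of_notMem (show n * s ∉ Ioi (0 : ℝ) from fun hc =>
        hs ((mul_pos_iff_of_pos_left hn).1 hc))]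

/-- Scaling on the space. -/
lemma p1_space {s : ℝ} (hs : 0 < s) {F : E d → ℝ≥0∞} (hF : Measurable F) :
    ∫⁻ z, F (s • z) = ENNReal.ofReal (s ^ d)⁻¹ * ∫⁻ w, F w := by
  have h1 := Measure.map_addHaar_smul (volume : Measure (E d)) hs.ne'
  rw [← lintegral_map hF (measurable_const_smul s), h1, lintegral_smul_measure,
    finrank_euclideanSpace_fin, abs_of_pos (by positivity), smul_eq_mul]

/-- The integral of a power. -/
lemma p1_pow {n : ℝ} (hn : 0 < n) (hd : d ≠ 0) :
    ENNReal.ofReal d * ∫⁻ s in Ici n, ENNReal.ofReal (n ^ d * (s ^ (d + 1))⁻¹) = 1 := by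
  have hd' : (0 : ℝ) < d := Nat.cast_pos.2 (Nat.pos_of_ne_zero hd)
  have ha : -((d : ℝ) + 1) < -1 := by linarith
  have h1 : ∫⁻ s in Ici n, ENNReal.ofReal (n ^ d * (s ^ (d + 1))⁻¹) =
      ∫⁻ s in Ioi n, ENNReal.ofReal (n ^ d * s ^ (-((d : ℝ) + 1))) := by
    rw [setLIntegral_congr (Ioi_ae_eq_Ici (μ := volume) (a := n)).symm]
    refine setLIntegral_congr_fun measurableSet_Ioi fun s hs => ?_
    have hs0 : 0 < s := hn.trans hs
    have : s ^ (-((d : ℝ) + 1)) = (s ^ (d + 1))⁻¹ := by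
      rw [Real.rpow_neg hs0.le, ← Nat.cast_succ, Real.rpow_natCast]
    rw [this]
  have hint : IntegrableOn (fun s : ℝ => n ^ d * s ^ (-((d : ℝ) + 1))) (Ioi n) :=
    (integrableOn_Ioi_rpow_of_lt ha hn).const_mul _
  rw [h1, ← ofReal_integral_eq_lintegral_ofReal hint, integral_const_mul,
    integral_Ioi_rpow_of_lt ha hn, ← ENNReal.ofReal_mul hd'.le]
  · have h2 : n ^ (-((d : ℝ) + 1) + 1) = (n ^ d)⁻¹ := by
      rw [show -((d : ℝ) + 1) + 1 = -(d : ℝ) by ring, Real.rpow_neg hn.le, Real.rpow_natCast]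
    have hnd : n ^ d ≠ 0 := (pow_pos hn d).ne'
    rw [h2, show -((d : ℝ) + 1) + 1 = -(d : ℝ) by ring, neg_div_neg_eq,
      show (d : ℝ) * (n ^ d * ((n ^ d)⁻¹ / d)) = 1 by field_simp, ENNReal.ofReal_one]
  · filter_upwards [ae_restrict_mem measurableSet_Ioi] with s hs
    have hs0 : 0 < s := hn.trans hs
    positivity

theorem polar (h : IsN N) (hd : d ≠ 0) {g : E d → ℝ≥0∞} (hg : Measurable g) :
    ∫⁻ x, g x = ENNReal.ofReal (d * vol N) *
      ∫⁻ x, ∫⁻ r in Ioi (0 : ℝ), ENNReal.ofReal (r ^ (d - 1)) * g (r • x) ∂volume ∂(cm N) := by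
  have hNm : Measurable N := h.cont.measurable
  have hφ : Measurable fun x : E d => (N x)⁻¹ • x := hNm.inv.smul measurable_id
  have hK : MeasurableSet {x : E d | N x ≤ 1} := h.measurableSet_ball 1
  have hVt : volume {x : E d | N x ≤ 1} ≠ ∞ := (h.isCompact_ball 1).measure_lt_top.ne
  have hV : ENNReal.ofReal (vol N) = volume {x : E d | N x ≤ 1} := ENNReal.ofReal_toReal hVt
  have hV0 : volume {x : E d | N x ≤ 1} ≠ 0 := by
    rw [← hV]
    exact (ENNReal.ofReal_pos.2 h.vol_pos).ne'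
  have hnz : ∀ᵐ z ∂(volume : Measure (E d)), z ≠ 0 := by
    have : Nonempty (Fin d) := ⟨⟨0, Nat.pos_of_ne_zero hd⟩⟩
    exact Measure.ae_ne volume 0
  -- the inner function is measurable
  have hG : Measurable fun x : E d =>
      ∫⁻ r in Ioi (0 : ℝ), ENNReal.ofReal (r ^ (d - 1)) * g (r • x) := by
    refine Measurable.lintegral_prod_right' (f := fun p : E d × ℝ =>
      ENNReal.ofReal (p.2 ^ (d - 1)) * g (p.2 • p.1)) ?_
    exact ((measurable_snd.pow_const _).ennreal_ofReal).mul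
      (hg.comp (measurable_snd.smul measurable_fst))
  have e1 : ∫⁻ x, ∫⁻ r in Ioi (0 : ℝ), ENNReal.ofReal (r ^ (d - 1)) * g (r • x) ∂volume ∂(cm N) =
      (volume {x : E d | N x ≤ 1})⁻¹ * ∫⁻ z in {x : E d | N x ≤ 1},
        ∫⁻ r in Ioi (0 : ℝ), ENNReal.ofReal (r ^ (d - 1)) * g (r • ((N z)⁻¹ • z)) := by
    unfold cm
    rw [lintegral_smul_measure, lintegral_map hG hφ, smul_eq_mul]
  -- first substitution
  have e2 : ∫⁻ z in {x : E d | N x ≤ 1},
        ∫⁻ r in Ioi (0 : ℝ), ENNReal.ofReal (r ^ (d - 1)) * g (r • ((N z)⁻¹ • z)) =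
      ∫⁻ z in {x : E d | N x ≤ 1}, ∫⁻ s in Ioi (0 : ℝ),
        ENNReal.ofReal (N z ^ d * s ^ (d - 1)) * g (s • z) := by
    refine lintegral_congr_ae ?_
    filter_upwards [ae_restrict_of_ae hnz] with z hz
    have hn : 0 < N z := h.pos z hz
    have hm : Measurable fun r : ℝ =>
        ENNReal.ofReal (r ^ (d - 1)) * g (r • ((N z)⁻¹ • z)) :=
      ((measurable_id.pow_const _).ennreal_ofReal).mul
        (hg.comp (measurable_id.smul_const _))
    rw [p1_real hn hm, ← lintegral_const_mul _ (by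
      exact (((measurable_const_mul (N z)).pow_const _).ennreal_ofReal).mul
        (hg.comp ((measurable_const_mul (N z)).smul_const _)))]
    refine setLIntegral_congr_fun measurableSet_Ioi fun s hs => ?_
    have hs0 : 0 < s := hs
    show ENNReal.ofReal (N z) * (ENNReal.ofReal ((N z * s) ^ (d - 1)) *
      g ((N z * s) • ((N z)⁻¹ • z))) = _
    rw [← mul_assoc, ← ENNReal.ofReal_mul hn.le, smul_smul,
      show N z * s * (N z)⁻¹ = s by field_simp,
      show N z * (N z * s) ^ (d - 1) = N z ^ d * s ^ (d - 1) by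
        rw [mul_pow, ← mul_assoc, mul_pow_sub_one hd]]
  -- Tonelli
  have e3 : ∫⁻ z in {x : E d | N x ≤ 1}, ∫⁻ s in Ioi (0 : ℝ),
        ENNReal.ofReal (N z ^ d * s ^ (d - 1)) * g (s • z) =
      ∫⁻ s in Ioi (0 : ℝ), ∫⁻ z in {x : E d | N x ≤ 1},
        ENNReal.ofReal (N z ^ d * s ^ (d - 1)) * g (s • z) := by
    refine lintegral_lintegral_swap (f := fun (z : E d) (s : ℝ) =>
      ENNReal.ofReal (N z ^ d * s ^ (d - 1)) * g (s • z)) ?_
    refine Measurable.aemeasurable ?_
    exact ((((hNm.comp measurable_fst).pow_const _).mul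
      (measurable_snd.pow_const _)).ennreal_ofReal).mul
      (hg.comp (measurable_snd.smul measurable_fst))
  -- second substitution
  have e4 : ∫⁻ s in Ioi (0 : ℝ), ∫⁻ z in {x : E d | N x ≤ 1},
        ENNReal.ofReal (N z ^ d * s ^ (d - 1)) * g (s • z) =
      ∫⁻ s in Ioi (0 : ℝ), ∫⁻ w, (Ici (N w)).indicator
        (fun s : ℝ => ENNReal.ofReal (N w ^ d * (s ^ (d + 1))⁻¹)) s * g w := by
    refine setLIntegral_congr_fun measurableSet_Ioi fun s hs => ?_
    have hs0 : 0 < s := hs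
    have hF : Measurable fun w : E d => {w : E d | N w ≤ s}.indicator
        (fun w : E d => ENNReal.ofReal (N w ^ d * s⁻¹) * g w) w := by
      refine Measurable.indicator ?_ (h.measurableSet_ball s)
      exact (((hNm.pow_const _).mul_const _).ennreal_ofReal).mul hg
    have h1 := p1_space (d := d) hs0 hF
    have h2 : ∀ z : E d, {w : E d | N w ≤ s}.indicator
        (fun w : E d => ENNReal.ofReal (N w ^ d * s⁻¹) * g w) (s • z) =
        {x : E d | N x ≤ 1}.indicator
          (fun z : E d => ENNReal.ofReal (N z ^ d * s ^ (d - 1)) * g (s • z)) z := by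
      intro z
      have hNs : N (s • z) = s * N z := h.smul_nonneg hs0.le z
      by_cases hz : N z ≤ 1
      · rw [indicator_of_mem (show z ∈ {x : E d | N x ≤ 1} from hz),
          indicator_of_mem (show s • z ∈ {w : E d | N w ≤ s} from by
            show N (s • z) ≤ s
            rw [hNs]
            exact mul_le_of_le_one_right hs0.le hz), hNs,
          show (s * N z) ^ d * s⁻¹ = N z ^ d * s ^ (d - 1) by
            rw [mul_pow, mul_comm (s ^ d), mul_assoc, ← mul_pow_sub_one hd s]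
            field_simp]
      · rw [indicator_of_notMem (show z ∉ {x : E d | N x ≤ 1} from hz),
          indicator_of_notMem (show s • z ∉ {w : E d | N w ≤ s} from fun hc => hz (by
            have hc' : N (s • z) ≤ s := hc
            rw [hNs] at hc'
            exact (mul_le_iff_le_one_right hs0).1 hc'))]
    simp only [h2] at h1
    rw [← lintegral_indicator hK, h1, ← lintegral_const_mul _ hF]
    refine lintegral_congr fun w => ?_
    by_cases hw : N w ≤ s
    · rw [indicator_of_mem (show w ∈ {w : E d | N w ≤ s} from hw),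
        indicator_of_mem (show s ∈ Ici (N w) from hw), ← mul_assoc,
        ← ENNReal.ofReal_mul (by positivity)]
      congr 2
      rw [pow_succ, mul_inv]
      ring
    · rw [indicator_of_notMem (show w ∉ {w : E d | N w ≤ s} from hw),
        indicator_of_notMem (show s ∉ Ici (N w) from hw), mul_zero, zero_mul]
  -- Tonelli
  have e5 : ∫⁻ s in Ioi (0 : ℝ), ∫⁻ w, (Ici (N w)).indicator
        (fun s : ℝ => ENNReal.ofReal (N w ^ d * (s ^ (d + 1))⁻¹)) s * g w =
      ∫⁻ w, ∫⁻ s in Ioi (0 : ℝ), (Ici (N w)).indicator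
        (fun s : ℝ => ENNReal.ofReal (N w ^ d * (s ^ (d + 1))⁻¹)) s * g w := by
    refine lintegral_lintegral_swap (f := fun (s : ℝ) (w : E d) => (Ici (N w)).indicator
        (fun s : ℝ => ENNReal.ofReal (N w ^ d * (s ^ (d + 1))⁻¹)) s * g w) ?_
    refine Measurable.aemeasurable ?_
    refine Measurable.mul ?_ (hg.comp measurable_snd)
    have hset : MeasurableSet {p : ℝ × E d | N p.2 ≤ p.1} :=
      measurableSet_le (hNm.comp measurable_snd) measurable_fst
    have hfun : Measurable fun p : ℝ × E d =>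
        ENNReal.ofReal (N p.2 ^ d * (p.1 ^ (d + 1))⁻¹) :=
      ((((hNm.comp measurable_snd).pow_const _)).mul
        ((measurable_fst.pow_const _).inv)).ennreal_ofReal
    exact hfun.indicator hset
  have e6 : ENNReal.ofReal d * ∫⁻ w, ∫⁻ s in Ioi (0 : ℝ), (Ici (N w)).indicator
        (fun s : ℝ => ENNReal.ofReal (N w ^ d * (s ^ (d + 1))⁻¹)) s * g w = ∫⁻ w, g w := by
    have hm : Measurable fun w : E d => ∫⁻ s in Ioi (0 : ℝ), (Ici (N w)).indicator
        (fun s : ℝ => ENNReal.ofReal (N w ^ d * (s ^ (d + 1))⁻¹)) s * g w := by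
      refine Measurable.lintegral_prod_right' (f := fun p : E d × ℝ => (Ici (N p.1)).indicator
        (fun s : ℝ => ENNReal.ofReal (N p.1 ^ d * (s ^ (d + 1))⁻¹)) p.2 * g p.1) ?_
      refine Measurable.mul ?_ (hg.comp measurable_fst)
      have hset : MeasurableSet {p : E d × ℝ | N p.1 ≤ p.2} :=
        measurableSet_le (hNm.comp measurable_fst) measurable_snd
      have hfun : Measurable fun p : E d × ℝ =>
          ENNReal.ofReal (N p.1 ^ d * (p.2 ^ (d + 1))⁻¹) :=
        ((((hNm.comp measurable_fst).pow_const _)).mul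
          ((measurable_snd.pow_const _).inv)).ennreal_ofReal
      exact hfun.indicator hset
    rw [← lintegral_const_mul _ hm]
    refine lintegral_congr_ae ?_
    filter_upwards [hnz] with w hw
    have hn : 0 < N w := h.pos w hw
    have hsub : Ici (N w) ⊆ Ioi (0 : ℝ) := fun s hs => lt_of_lt_of_le hn hs
    have hmi : Measurable fun s : ℝ => (Ici (N w)).indicator
        (fun s : ℝ => ENNReal.ofReal (N w ^ d * (s ^ (d + 1))⁻¹)) s :=
      ((measurable_const.mul ((measurable_id.pow_const _).inv)).ennreal_ofReal).indicator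
        measurableSet_Ici
    rw [lintegral_mul_const _ hmi, ← mul_assoc, lintegral_indicator measurableSet_Ici,
      Measure.restrict_restrict measurableSet_Ici,
      inter_eq_left.2 hsub,
      p1_pow hn hd, one_mul]
  rw [e1, e2, e3, e4, e5, ← e6, ← mul_assoc]
  congr 1
  rw [ENNReal.ofReal_mul (Nat.cast_nonneg d), hV, mul_assoc, ENNReal.mul_inv_cancel hV0 hVt,
    mul_one]

end Pool.Agent.LibSP52
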